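import Pool.Agent.Q224.DJ.Stm

/-!
# Assembly of the project DJ
-/

set_option autoImplicit false

namespace Pool.Agent.Q224.DJ

open Finset Classical

/-- The weak colouring lemma follows from the strong one. -/
theorem lb (hLA : S_LA) : S_LB := by
  intro V _ G W hW hd hc
  rcases hLA V G W hW hd hc with ⟨f, hf, -⟩ | h1 | h2
  · exact ⟨f, hf⟩
  · obtain ⟨Q, T, hQW, hTW, hdj, hQ6, hT3, hQc, hQT, hT, hQo⟩ := h1
    -- the other vertices
    set S := (W \ Q) \ T with hS
    have hScard : S.card ≤ 5 := by
      have h1 : (W \ Q).card = W.card - Q.card := Finset.card_sdiff_of_subset hQW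
      have h2 : T ⊆ W \ Q := by
        intro t ht
        rw [Finset.mem_sdiff]
        exact ⟨hTW ht, fun hq => (Finset.disjoint_left.mp hdj) hq ht⟩
      have h3 : ((W \ Q) \ T).card = (W \ Q).card - T.card := Finset.card_sdiff_of_subset h2
      rw [hS, h3, h1, hQ6, hT3]
      omega
    obtain ⟨eQ⟩ : Nonempty (Q ≃ Fin 6) := ⟨Finset.equivFinOfCardEq hQ6⟩
    have eS : S ≃ Fin S.card := Finset.equivFin S
    refine ⟨fun x => if hx : x ∈ Q then ⟨(eQ ⟨x, hx⟩).val, by have := (eQ ⟨x, hx⟩).isLt; omega⟩
      else if hx2 : x ∈ S then ⟨(eS ⟨x, hx2⟩).val, by have := (eS ⟨x, hx2⟩).isLt; omega⟩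
      else 6, ?_⟩
    intro x hx y hy hxy
    have hne : x ≠ y := G.ne_of_adj hxy
    have key : ∀ z ∈ W, z ∉ Q → z ∉ S → z ∈ T := by
      intro z hz h1 h2
      by_contra h3
      apply h2
      rw [hS, Finset.mem_sdiff, Finset.mem_sdiff]
      exact ⟨⟨hz, h1⟩, h3⟩
    have hST : ∀ z ∈ S, z ∉ T := by
      intro z hz
      rw [hS, Finset.mem_sdiff] at hz
      exact hz.2
    have hSQ : ∀ z ∈ S, z ∉ Q := by
      intro z hz
      rw [hS, Finset.mem_sdiff, Finset.mem_sdiff] at hz
      exact hz.1.2
    by_cases hxQ : x ∈ Q <;> by_cases hyQ : y ∈ Q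
    · simp only [hxQ, hyQ, dite_true]
      intro h
      have h' := congrArg Fin.val h
      simp only at h'
      have : eQ ⟨x, hxQ⟩ = eQ ⟨y, hyQ⟩ := Fin.ext h'
      have := eQ.injective this
      exact hne (congrArg Subtype.val this)
    · by_cases hyS : y ∈ S
      · exfalso
        rcases hQo x hxQ y hy hxy with h | h
        · exact hyQ h
        · exact hST y hyS h
      · simp only [hxQ, hyQ, hyS, dite_true, dite_false]
        intro h
        have h' := congrArg Fin.val h
        have := (eQ ⟨x, hxQ⟩).isLt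
        simp only at h'
        have h6 : ((6 : Fin 7) : ℕ) = 6 := rfl
        omega
    · by_cases hxS : x ∈ S
      · exfalso
        rcases hQo y hyQ x hx hxy.symm with h | h
        · exact hxQ h
        · exact hST x hxS h
      · simp only [hxQ, hyQ, hxS, dite_true, dite_false]
        intro h
        have h' := congrArg Fin.val h
        have := (eQ ⟨y, hyQ⟩).isLt
        simp only at h'
        have h6 : ((6 : Fin 7) : ℕ) = 6 := rfl
        omega
    · by_cases hxS : x ∈ S <;> by_cases hyS : y ∈ S
      · simp only [hxQ, hyQ, hxS, hyS, dite_true, dite_false]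
        intro h
        have h' := congrArg Fin.val h
        simp only at h'
        have : eS ⟨x, hxS⟩ = eS ⟨y, hyS⟩ := Fin.ext h'
        have := eS.injective this
        exact hne (congrArg Subtype.val this)
      · simp only [hxQ, hyQ, hxS, hyS, dite_true, dite_false]
        intro h
        have h' := congrArg Fin.val h
        have := (eS ⟨x, hxS⟩).isLt
        simp only at h'
        have h6 : ((6 : Fin 7) : ℕ) = 6 := rfl
        omega
      · simp only [hxQ, hyQ, hxS, hyS, dite_true, dite_false]
        intro h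
        have h' := congrArg Fin.val h
        have := (eS ⟨y, hyS⟩).isLt
        simp only at h'
        have h6 : ((6 : Fin 7) : ℕ) = 6 := rfl
        omega
      · exfalso
        exact hT x (key x hx hxQ hxS) y (key y hy hyQ hyS) hxy
  · obtain ⟨A, B, hAB, hdj, hA, hB, hj, hA1, hB1⟩ := h2
    -- colour A with its index restricted: greedy two-colouring by an order
    have two : ∀ (D : Finset V), (∀ a ∈ D, (nb G D a).card ≤ 1) →
        ∃ g : V → Bool, ∀ x ∈ D, ∀ y ∈ D, G.Adj x y → g x ≠ g y := by
      intro D hD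
      obtain ⟨e⟩ : Nonempty (V ≃ Fin (Fintype.card V)) := ⟨Fintype.equivFin V⟩
      refine ⟨fun x => decide (∃ y ∈ D, G.Adj x y ∧ e x < e y), ?_⟩
      intro x hx y hy hxy
      have ux : ∀ z ∈ D, G.Adj x z → z = y := by
        intro z hz hxz
        have h1 : z ∈ nb G D x := by simp only [nb, Finset.mem_filter]; exact ⟨hz, hxz⟩
        have h2 : y ∈ nb G D x := by simp only [nb, Finset.mem_filter]; exact ⟨hy, hxy⟩
        exact Finset.card_le_one.mp (hD x hx) z h1 y h2
      have uy : ∀ z ∈ D, G.Adj y z → z = x := by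
        intro z hz hyz
        have h1 : z ∈ nb G D y := by simp only [nb, Finset.mem_filter]; exact ⟨hz, hyz⟩
        have h2 : x ∈ nb G D y := by simp only [nb, Finset.mem_filter]; exact ⟨hx, hxy.symm⟩
        exact Finset.card_le_one.mp (hD y hy) z h1 x h2
      have hne : e x ≠ e y := fun h => G.ne_of_adj hxy (e.injective h)
      have ix : (∃ z ∈ D, G.Adj x z ∧ e x < e z) ↔ e x < e y := by
        constructor
        · rintro ⟨z, hz, h1, h2⟩
          rw [ux z hz h1] at h2; exact h2
        · intro h; exact ⟨y, hy, hxy, h⟩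
      have iy : (∃ z ∈ D, G.Adj y z ∧ e y < e z) ↔ e y < e x := by
        constructor
        · rintro ⟨z, hz, h1, h2⟩
          rw [uy z hz h1] at h2; exact h2
        · intro h; exact ⟨x, hx, hxy.symm, h⟩
      intro h
      rw [decide_eq_decide, ix, iy] at h
      rcases lt_or_gt_of_ne hne with h1 | h1
      · exact absurd (h.mp h1) (not_lt.mpr h1.le)
      · exact absurd (h.mpr h1) (not_lt.mpr (le_of_lt h1))
    obtain ⟨g, hg⟩ := two A hA1
    obtain ⟨g', hg'⟩ := two B hB1
    refine ⟨fun x => if x ∈ A then (if g x = true then 0 else 1)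
      else (if g' x = true then 2 else 3), ?_⟩
    intro x hx y hy hxy
    have memB : ∀ z ∈ W, z ∉ A → z ∈ B := by
      intro z hz h
      rw [← hAB, Finset.mem_union] at hz
      exact hz.resolve_left h
    by_cases hxA : x ∈ A <;> by_cases hyA : y ∈ A
    · have h := hg x hxA y hyA hxy
      simp only [hxA, hyA, if_true]
      cases h1 : g x <;> cases h2 : g y <;> simp_all
    · simp only [hxA, hyA, if_true, if_false]
      cases h1 : g x <;> cases h2 : g' y <;> simp
    · simp only [hxA, hyA, if_true, if_false]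
      cases h1 : g' x <;> cases h2 : g y <;> simp
    · have h := hg' x (memB x hx hxA) y (memB y hy hyA) hxy
      simp only [hxA, hyA, if_false]
      cases h1 : g' x <;> cases h2 : g' y <;> simp_all

/-- The induced degrees are at most eight. -/
theorem hyp_nb {V : Type} [Fintype V] {G : SimpleGraph V} {K R : Finset V} (h : Hyp G K R)
    (W : Finset V) (x : V) : (nb G W x).card ≤ 8 := by
  refine le_trans (Finset.card_le_card ?_) (h.2.2.2.2.2.1 x)
  intro y hy
  simp only [nb, Finset.mem_filter, Finset.mem_univ, true_and] at hy ⊢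
  exact hy.2

theorem hyp_k8 {V : Type} [Fintype V] {G : SimpleGraph V} {K R : Finset V} (h : Hyp G K R)
    (W : Finset V) : NoK8 G W := by
  intro Q _ hQ8
  exact h.2.2.2.2.2.2 Q (Finset.subset_univ _) hQ8

/-- The case of a vertex with at least four neighbours in `K`. -/
theorem h1 (hLB : S_LB) (hS : S_STAR) (hO : S_ONE) (hT : S_TWO) (hF : S_FORCED) : S_H1 := by
  intro V _ G K R hyp hex
  -- choose h with the largest number of neighbours in K
  obtain ⟨h0, hh0, hh04⟩ := hex
  obtain ⟨h, hhR, hmax⟩ := Finset.exists_max_image R (fun x => (nb G K x).card) ⟨h0, hh0⟩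
  have h4 : 4 ≤ (nb G K h).card := le_trans hh04 (hmax h0 hh0)
  have hcardR : R.card ≤ 14 := hyp.2.2.2.2.1
  have hcol : ∀ W : Finset V, W ⊆ R → ∃ f : V → Fin 7, Col G W f := by
    intro W hW
    exact hLB V G W (le_trans (Finset.card_le_card hW) hcardR) (fun x _ => hyp_nb hyp W x)
      (hyp_k8 hyp W)
  by_cases hall : ∀ v ∈ nb G K h, ∃ u ∈ R.erase h, G.Adj v u
  · by_cases htwo : ∃ b ∈ BS G K R h, ∃ b' ∈ BS G K R h, b ≠ b'
    · by_cases hforced : ∀ b ∈ BS G K R h, ∀ b' ∈ BS G K R h, b ≠ b' → ¬ G.Adj b b' ∧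
          ∃ Q : Finset V, Q ⊆ R.erase h ∧ Q.card = 6 ∧ Clq G Q ∧
            ∀ q ∈ Q, G.Adj q b ∧ G.Adj q b'
      · exact hF V G K R h hyp hhR h4 hall htwo hforced
      · push Not at hforced
        obtain ⟨b, hb, b', hb', hne, hq⟩ := hforced
        refine hT hLB hS V G K R h b b' hyp hhR h4 hb hb' hne ?_
        by_cases hadj : G.Adj b b'
        · exact Or.inl hadj
        · right
          rintro ⟨Q, hQ1, hQ2, hQ3, hQ4⟩
          obtain ⟨q, hq1, hq2⟩ := hq hadj Q hQ1 hQ2 hQ3
          exact hq2 (hQ4 q hq1).1 (hQ4 q hq1).2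
    · -- all vertices of N(h) have the same second neighbour
      push Not at htwo
      have hne : (nb G K h).Nonempty := by
        rw [← Finset.card_pos]; omega
      obtain ⟨v, hv⟩ := hne
      obtain ⟨b, hb, hvb⟩ := hall v hv
      have hbB : b ∈ BS G K R h := by
        simp only [BS, Finset.mem_filter]
        exact ⟨hb, v, hv, hvb⟩
      have hsub : nb G K h ⊆ nb G K b := by
        intro w hw
        obtain ⟨c, hc, hwc⟩ := hall w hw
        have hcB : c ∈ BS G K R h := by
          simp only [BS, Finset.mem_filter]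
          exact ⟨hc, w, hw, hwc⟩
        have : b = c := htwo b hbB c hcB
        subst this
        simp only [nb, Finset.mem_filter] at hw ⊢
        exact ⟨hw.1, hwc.symm⟩
      have hbR : b ∈ R := Finset.mem_of_mem_erase hb
      have heq : nb G K h = nb G K b := Finset.eq_of_subset_of_card_le hsub (hmax b hbR)
      obtain ⟨f, hf⟩ := hcol ((R.erase h).erase b)
        ((Finset.erase_subset _ _).trans (Finset.erase_subset _ _))
      exact hO V G K R h b f hyp hhR hbR (Finset.ne_of_mem_erase hb).symm heq.symm h4 hf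
  · push Not at hall
    obtain ⟨v, hv, hvn⟩ := hall
    obtain ⟨f, hf⟩ := hcol (R.erase h) (Finset.erase_subset _ _)
    refine hS V G K R h f hyp hhR h4 hf ?_
    intro c
    refine ⟨v, hv, ?_⟩
    rintro ⟨u, hu, hvu, -⟩
    exact hvn u hu hvu

/-- The case of at most three neighbours. -/
theorem h0 (hLA : S_LA) (hPG : S_PG) (hNE : S_SIGNE) (hEQ : S_SIGEQ) (hE1 : S_E1G)
    (hE2 : S_E2G) : S_H0 := by
  intro V _ G K R hyp h3
  have hLB := lb hLA
  rcases hLA V G R hyp.2.2.2.2.1 (fun x _ => hyp_nb hyp R x) (hyp_k8 hyp R) with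
    ⟨f, hf, hf2⟩ | h | h
  · rcases hPG V G K R f hyp h3 hf hf2 with hg | hsig
    · exact hg
    · obtain ⟨u1, m1, u2, m2, u3, m3, u4, m4, hnd, c1, c2, c3, c4, d12, d34, hun, n12, n34⟩ :=
        hsig
      by_cases e13 : nb G K u1 = nb G K u3
      · have e24 : nb G K u2 = nb G K u4 := by
          have h1 : nb G K u2 = (nb G K u1 ∪ nb G K u2) \ nb G K u1 := by
            rw [Finset.union_sdiff_left]
            exact (Finset.sdiff_eq_self_of_disjoint d12.symm).symm
          have h2 : nb G K u4 = (nb G K u3 ∪ nb G K u4) \ nb G K u3 := by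
            rw [Finset.union_sdiff_left]
            exact (Finset.sdiff_eq_self_of_disjoint d34.symm).symm
          rw [h1, h2, hun, e13]
        exact hEQ hLB V G K R u1 u2 u3 u4 hyp m1 m2 m3 m4 hnd c1 c2 d12 e13 e24 n12 n34
      · by_cases e14 : nb G K u1 = nb G K u4
        · have e23 : nb G K u2 = nb G K u3 := by
            have h1 : nb G K u2 = (nb G K u1 ∪ nb G K u2) \ nb G K u1 := by
              rw [Finset.union_sdiff_left]
              exact (Finset.sdiff_eq_self_of_disjoint d12.symm).symm
            have h2 : nb G K u3 = (nb G K u3 ∪ nb G K u4) \ nb G K u4 := by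
              rw [Finset.union_sdiff_right]
              exact (Finset.sdiff_eq_self_of_disjoint d34).symm
            rw [h1, h2, hun, e14]
          have hnd' : [u1, u2, u4, u3].Nodup := by
            simp only [List.nodup_cons, List.mem_cons, List.not_mem_nil, or_false, not_or,
              not_false_eq_true, List.nodup_nil, and_true] at hnd ⊢
            obtain ⟨⟨a, b, c⟩, ⟨d, e⟩, g⟩ := hnd
            exact ⟨⟨a, c, b⟩, ⟨e, d⟩, fun h => g h.symm⟩
          exact hEQ hLB V G K R u1 u2 u4 u3 hyp m1 m2 m4 m3 hnd' c1 c2 d12 e14 e23 n12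
            (fun h => n34 h.symm)
        · exact hNE hLB V G K R u1 u2 u3 u4 hyp m1 m2 m3 m4 hnd c1 c2 c3 c4 d12 d34 hun e13 e14
  · exact hE1 V G K R hyp h3 h
  · exact hE2 V G K R hyp h

/-- The lower bound. -/
theorem low (hH1 : S_H1) (hH0 : S_H0) (hEXT : S_EXT) : S_LOW := by
  intro m H hV
  by_contra hm
  push Not at hm
  obtain ⟨hcl, hchi, hdeg⟩ := hV
  obtain ⟨K, hK⟩ := H.exists_isNClique_cliqueNum
  rw [hcl] at hK
  have hyp : Hyp H K (univ \ K) := by
    refine ⟨?_, ?_, hK.card_eq, ?_, ?_, ?_, ?_⟩
    · intro x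
      by_cases hx : x ∈ K
      · exact Or.inl hx
      · right; simp [hx]
    · intro x hx; simp [hx]
    · intro x hx y hy hxy
      exact hK.isClique (Finset.mem_coe.mpr hx) (Finset.mem_coe.mpr hy) hxy
    · rw [Finset.card_sdiff_of_subset (Finset.subset_univ K), hK.card_eq]
      simp
      omega
    · intro x
      have h1 : (nb H univ x).card = H.degree x := by
        rw [← SimpleGraph.card_neighborFinset_eq_degree]
        congr 1
        ext y
        simp [nb]
      rw [h1, ← hdeg]
      exact H.degree_le_maxDegree x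
    · intro Q _ hQ8 hQc
      have h1 : H.IsNClique 8 Q := by
        rw [SimpleGraph.isNClique_iff]
        refine ⟨?_, hQ8⟩
        intro x hx y hy hxy
        exact hQc x (Finset.mem_coe.mp hx) y (Finset.mem_coe.mp hy) hxy
      have h2 : Q.card ≤ H.cliqueNum := h1.isClique.card_le_cliqueNum
      omega
  have hgood : ∃ g, Good H K (univ \ K) g := by
    by_cases h : ∃ h ∈ univ \ K, 4 ≤ (nb H K h).card
    · exact hH1 _ H K _ hyp h
    · push Not at h
      exact hH0 _ H K _ hyp (fun u hu => by have := h u hu; omega)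
  obtain ⟨g, hg⟩ := hgood
  have hcol := hEXT _ H K _ g hyp hg
  have h7 : H.chromaticNumber ≤ 7 := by
    have := hcol.chromaticNumber_le
    exact_mod_cast this
  rw [hchi] at h7
  exact absurd h7 (by norm_num)

end Pool.Agent.Q224.DJ
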