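import Mathlib

/-!
# Definitions for the project DJ (minimum order graphs with prescribed invariants)
-/

set_option autoImplicit false

namespace Pool.Agent.Q224.DJ

open Finset Classical

/-- The neighbours of `x` in the set `W`. -/
noncomputable def nb {V : Type} [Fintype V] (G : SimpleGraph V) (W : Finset V) (x : V) : Finset V :=
  W.filter (fun y => G.Adj x y)

/-- `Q` is a clique. -/
def Clq {V : Type} (G : SimpleGraph V) (Q : Finset V) : Prop :=
  ∀ x ∈ Q, ∀ y ∈ Q, x ≠ y → G.Adj x y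

/-- `f` is a proper colouring of the subgraph induced by `W`. -/
def Col {V : Type} (G : SimpleGraph V) (W : Finset V) (f : V → Fin 7) : Prop :=
  ∀ x ∈ W, ∀ y ∈ W, G.Adj x y → f x ≠ f y

/-- No complete graph on eight vertices inside `W`. -/
def NoK8 {V : Type} (G : SimpleGraph V) (W : Finset V) : Prop :=
  ∀ Q : Finset V, Q ⊆ W → Q.card = 8 → ¬ Clq G Q

/-- The situation: the vertices are split into a clique `K` of size seven and a set `R` of at most
fourteen vertices, all degrees are at most eight and there is no clique of size eight. -/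
def Hyp {V : Type} [Fintype V] (G : SimpleGraph V) (K R : Finset V) : Prop :=
  (∀ x, x ∈ K ∨ x ∈ R) ∧ (∀ x, x ∈ K → x ∉ R) ∧ K.card = 7 ∧ Clq G K ∧ R.card ≤ 14 ∧
    (∀ x, (nb G univ x).card ≤ 8) ∧ NoK8 G univ

/-- The vertex `v` has a neighbour of colour `c` in `R`. -/
def Sees {V : Type} (G : SimpleGraph V) (R : Finset V) (f : V → Fin 7) (v : V) (c : Fin 7) : Prop :=
  ∃ u ∈ R, G.Adj v u ∧ f u = c

/-- A colouring of `R` which extends to `K`. -/
def Good {V : Type} (G : SimpleGraph V) (K R : Finset V) (f : V → Fin 7) : Prop :=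
  Col G R f ∧ (∀ c, ∃ v ∈ K, ¬ Sees G R f v c) ∧
    (∀ c c', c ≠ c' → ∃ v ∈ K, ∃ v' ∈ K, v ≠ v' ∧ ¬ (Sees G R f v c ∧ Sees G R f v c') ∧
      ¬ (Sees G R f v' c ∧ Sees G R f v' c'))

/-- First exceptional structure: a clique `Q` of size six completely joined to an independent set
`T` of size three, and no further edges at `Q` inside `W`. -/
def E1 {V : Type} (G : SimpleGraph V) (W : Finset V) : Prop :=
  ∃ Q T : Finset V, Q ⊆ W ∧ T ⊆ W ∧ Disjoint Q T ∧ Q.card = 6 ∧ T.card = 3 ∧ Clq G Q ∧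
    (∀ q ∈ Q, ∀ t ∈ T, G.Adj q t) ∧ (∀ t ∈ T, ∀ t' ∈ T, ¬ G.Adj t t') ∧
    (∀ q ∈ Q, ∀ y ∈ W, G.Adj q y → y ∈ Q ∨ y ∈ T)

/-- Second exceptional structure: the join of two graphs on seven vertices of maximum degree at
most one. -/
def E2 {V : Type} [Fintype V] (G : SimpleGraph V) (W : Finset V) : Prop :=
  ∃ A B : Finset V, A ∪ B = W ∧ Disjoint A B ∧ A.card = 7 ∧ B.card = 7 ∧
    (∀ a ∈ A, ∀ b ∈ B, G.Adj a b) ∧ (∀ a ∈ A, (nb G A a).card ≤ 1) ∧ (∀ b ∈ B, (nb G B b).card ≤ 1)

/-- The set of vertices of `R` other than `h` which have a common neighbour with `h` in `K`. -/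
noncomputable def BS {V : Type} [Fintype V] (G : SimpleGraph V) (K R : Finset V) (h : V) :
    Finset V :=
  (R.erase h).filter (fun b => ∃ v ∈ nb G K h, G.Adj v b)

/-- `G` has clique number `a`, chromatic number `b` and maximum degree `c`. -/
def Via {n : ℕ} (G : SimpleGraph (Fin n)) (a b c : ℕ) : Prop :=
  G.cliqueNum = a ∧ G.chromaticNumber = b ∧ G.maxDegree = c

/-- The example: the blow-up of the 5-cycle in which every vertex is replaced by a triangle
(vertices 0 to 14), together with a complete graph on seven vertices (15 to 21). -/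
def exG : SimpleGraph (Fin 22) where
  Adj x y := x ≠ y ∧
    ((x.val < 15 ∧ y.val < 15 ∧ (x.val / 3 = y.val / 3 ∨ (x.val / 3 + 1) % 5 = y.val / 3 ∨
      (y.val / 3 + 1) % 5 = x.val / 3)) ∨ (15 ≤ x.val ∧ 15 ≤ y.val))
  symm := by
    refine ⟨fun x y h => ?_⟩
    refine ⟨h.1.symm, ?_⟩
    rcases h.2 with ⟨h1, h2, h3⟩ | ⟨h1, h2⟩
    · left
      refine ⟨h2, h1, ?_⟩
      rcases h3 with h | h | h
      · left; exact h.symm
      · right; right; exact h
      · right; left; exact h
    · right; exact ⟨h2, h1⟩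
  loopless := ⟨fun x h => h.1 rfl⟩

end Pool.Agent.Q224.DJ
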