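import Pool.Agent.Q224.DJ.PG

/-!
# The second exceptional structure
-/

set_option autoImplicit false

namespace Pool.Agent.Q224.DJ

open Finset Classical

theorem good_of_small {V : Type} [Fintype V] {G : SimpleGraph V} {K R : Finset V}
    {f : V → Fin 7} (hyp : Hyp G K R) (hf : Col G R f)
    (h5 : ∀ c, (SK G K R f c).card ≤ 5) : Good G K R f := by
  have hwit : ∀ c, 1 < (K.filter (fun v => ¬ Sees G R f v c)).card := by
    intro c
    have h2 := Finset.card_filter_add_card_filter_not (s := K) (fun v => Sees G R f v c)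
    have h3 : (K.filter (fun v => Sees G R f v c)).card ≤ 5 := h5 c
    rw [hyp.2.2.1] at h2
    omega
  refine ⟨hf, ?_, ?_⟩
  · intro c
    obtain ⟨a, ha, b, hb, hab⟩ := Finset.one_lt_card.mp (hwit c)
    rw [Finset.mem_filter] at ha
    exact ⟨a, ha.1, ha.2⟩
  · intro c c' _
    obtain ⟨a, ha, b, hb, hab⟩ := Finset.one_lt_card.mp (hwit c)
    rw [Finset.mem_filter] at ha hb
    exact ⟨a, ha.1, b, hb.1, hab, fun h => ha.2 h.1, fun h => hb.2 h.1⟩

theorem split {V : Type} [Fintype V] {G : SimpleGraph V} : ∀ (n : ℕ) (A : Finset V),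
    A.card = n → (∀ a ∈ A, (nb G A a).card ≤ 1) → ∃ T : Finset V, T ⊆ A ∧
      2 * T.card ≤ A.card + 1 ∧ 2 * (A \ T).card ≤ A.card + 1 ∧
      (∀ x ∈ T, ∀ y ∈ T, ¬ G.Adj x y) ∧ (∀ x ∈ A \ T, ∀ y ∈ A \ T, ¬ G.Adj x y) := by
  intro n
  induction n using Nat.strong_induction_on with
  | _ n ih =>
    intro A hA hdeg
    by_cases hedge : ∃ a ∈ A, ∃ b ∈ A, G.Adj a b
    · obtain ⟨a, ha, b, hb, hab⟩ := hedge
      have hne := G.ne_of_adj hab
      set A' := (A.erase a).erase b with hA'
      have memA' : ∀ x, x ∈ A' ↔ x ≠ b ∧ x ≠ a ∧ x ∈ A := by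
        intro x
        rw [hA', Finset.mem_erase, Finset.mem_erase]
      have hcard' : A'.card + 2 = A.card := by
        have h1 : A'.card = (A.erase a).card - 1 :=
          Finset.card_erase_of_mem (Finset.mem_erase.mpr ⟨hne.symm, hb⟩)
        have h2 := Finset.card_erase_of_mem ha
        have h3 : ({a, b} : Finset V).card ≤ A.card := Finset.card_le_card (by
          intro x hx
          rw [Finset.mem_insert, Finset.mem_singleton] at hx
          rcases hx with rfl | rfl
          · exact ha
          · exact hb)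
        rw [Finset.card_pair hne] at h3
        omega
      have ha_only : ∀ y ∈ A, G.Adj a y → y = b := by
        intro y hy hay
        exact Finset.card_le_one.mp (hdeg a ha) y (mem_nb.mpr ⟨hy, hay⟩) b (mem_nb.mpr ⟨hb, hab⟩)
      have hb_only : ∀ y ∈ A, G.Adj b y → y = a := by
        intro y hy hby
        exact Finset.card_le_one.mp (hdeg b hb) y (mem_nb.mpr ⟨hy, hby⟩) a
          (mem_nb.mpr ⟨ha, hab.symm⟩)
      obtain ⟨T, hT, h1, h2, h3, h4⟩ := ih A'.card (by omega) A' rfl (by
        intro x hx
        refine le_trans (Finset.card_le_card ?_) (hdeg x ((memA' x).mp hx).2.2)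
        intro y hy
        exact mem_nb.mpr ⟨((memA' y).mp (mem_nb.mp hy).1).2.2, (mem_nb.mp hy).2⟩)
      have haT : a ∉ T := fun h => ((memA' a).mp (hT h)).2.1 rfl
      have hbT : b ∉ T := fun h => ((memA' b).mp (hT h)).1 rfl
      have hsd : A \ insert a T = insert b (A' \ T) := by
        ext x
        rw [Finset.mem_sdiff, Finset.mem_insert, Finset.mem_insert, Finset.mem_sdiff, memA']
        constructor
        · rintro ⟨hx, hx2⟩
          push Not at hx2
          by_cases hxb : x = b
          · exact Or.inl hxb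
          · exact Or.inr ⟨⟨hxb, hx2.1, hx⟩, hx2.2⟩
        · rintro (rfl | ⟨⟨h5, h6, h7⟩, h8⟩)
          · exact ⟨hb, fun h => h.elim (fun h => hne h.symm) hbT⟩
          · exact ⟨h7, fun h => h.elim h6 h8⟩
      refine ⟨insert a T, ?_, ?_, ?_, ?_, ?_⟩
      · intro x hx
        rw [Finset.mem_insert] at hx
        rcases hx with rfl | hx
        · exact ha
        · exact ((memA' x).mp (hT hx)).2.2
      · rw [Finset.card_insert_of_notMem haT]; omega
      · rw [hsd, Finset.card_insert_of_notMem]
        · omega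
        · rw [Finset.mem_sdiff, memA']
          exact fun h => h.1.1 rfl
      · intro x hx y hy hxy
        rw [Finset.mem_insert] at hx hy
        rcases hx with hx | hx <;> rcases hy with hy | hy
        · exact G.ne_of_adj hxy (hx.trans hy.symm)
        · have := ha_only y ((memA' y).mp (hT hy)).2.2 (hx ▸ hxy)
          exact ((memA' y).mp (hT hy)).1 this
        · have := ha_only x ((memA' x).mp (hT hx)).2.2 (hy ▸ hxy.symm)
          exact ((memA' x).mp (hT hx)).1 this
        · exact h3 x hx y hy hxy
      · rw [hsd]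
        intro x hx y hy hxy
        rw [Finset.mem_insert] at hx hy
        rcases hx with hx | hx <;> rcases hy with hy | hy
        · exact G.ne_of_adj hxy (hx.trans hy.symm)
        · have hy' := (memA' y).mp (Finset.mem_sdiff.mp hy).1
          exact hy'.2.1 (hb_only y hy'.2.2 (hx ▸ hxy))
        · have hx' := (memA' x).mp (Finset.mem_sdiff.mp hx).1
          exact hx'.2.1 (hb_only x hx'.2.2 (hy ▸ hxy.symm))
        · exact h4 x hx y hy hxy
    · push Not at hedge
      obtain ⟨T, hT, hTc⟩ := Finset.exists_subset_card_eq (s := A) (n := A.card / 2) (by omega)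
      refine ⟨T, hT, by omega, ?_, ?_, ?_⟩
      · have := Finset.card_sdiff_add_card_eq_card hT
        omega
      · intro x hx y hy
        exact hedge x (hT hx) y (hT hy)
      · intro x hx y hy
        exact hedge x (Finset.mem_sdiff.mp hx).1 y (Finset.mem_sdiff.mp hy).1

theorem e2g : S_E2G := by
  intro V _ G K R hyp hE2
  obtain ⟨A, B, hAB, hd, hA7, hB7, hj, hA, hB⟩ := hE2
  obtain ⟨TA, hTA, a1, a2, a3, a4⟩ := split 7 A hA7 hA
  obtain ⟨TB, hTB, b1, b2, b3, b4⟩ := split 7 B hB7 hB
  have hAR : A ⊆ R := by rw [← hAB]; exact Finset.subset_union_left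
  have hBR : B ⊆ R := by rw [← hAB]; exact Finset.subset_union_right
  have hcases : ∀ x ∈ R, x ∈ A ∨ x ∈ B := by
    intro x hx
    rw [← hAB, Finset.mem_union] at hx
    exact hx
  have hnA : ∀ x ∈ B, x ∉ A := fun x hx hxA => Finset.disjoint_left.mp hd hxA hx
  have hnb1 : ∀ u ∈ R, (nb G K u).card ≤ 1 := by
    intro u hu
    have h7 : 7 ≤ (nb G R u).card := by
      rcases hcases u hu with h | h
      · rw [← hB7]
        apply Finset.card_le_card
        intro y hy
        exact mem_nb.mpr ⟨hBR hy, hj u h y hy⟩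
      · rw [← hA7]
        apply Finset.card_le_card
        intro y hy
        exact mem_nb.mpr ⟨hAR hy, (hj y hy u h).symm⟩
    have := nb_add hyp u
    omega
  let f : V → Fin 7 := fun x => if x ∈ TA then 0 else if x ∈ A then 1 else if x ∈ TB then 2 else 3
  have hcol : Col G R f := by
    intro x hx y hy hxy
    have key : ∀ z ∈ R, (f z = 0 ∧ z ∈ TA) ∨ (f z = 1 ∧ z ∈ A \ TA) ∨ (f z = 2 ∧ z ∈ TB) ∨
        (f z = 3 ∧ z ∈ B \ TB) := by
      intro z hz
      by_cases h1 : z ∈ TA
      · left; exact ⟨by simp [f, h1], h1⟩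
      by_cases h2 : z ∈ A
      · right; left; exact ⟨by simp [f, h1, h2], Finset.mem_sdiff.mpr ⟨h2, h1⟩⟩
      have h3 := (hcases z hz).resolve_left h2
      by_cases h4 : z ∈ TB
      · right; right; left; exact ⟨by simp [f, h1, h2, h4], h4⟩
      · right; right; right; exact ⟨by simp [f, h1, h2, h4], Finset.mem_sdiff.mpr ⟨h3, h4⟩⟩
    rcases key x hx with ⟨e1, m1⟩ | ⟨e1, m1⟩ | ⟨e1, m1⟩ | ⟨e1, m1⟩ <;>
    rcases key y hy with ⟨e2, m2⟩ | ⟨e2, m2⟩ | ⟨e2, m2⟩ | ⟨e2, m2⟩ <;>
    first
    | exact absurd hxy (a3 x m1 y m2)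
    | exact absurd hxy (a4 x m1 y m2)
    | exact absurd hxy (b3 x m1 y m2)
    | exact absurd hxy (b4 x m1 y m2)
    | (rw [e1, e2]; decide)
  refine ⟨f, good_of_small hyp hcol ?_⟩
  intro c
  have hcls : (R.filter (fun x => f x = c)).card ≤ 4 := by
    have hsub : R.filter (fun x => f x = c) ⊆ TA ∨ R.filter (fun x => f x = c) ⊆ A \ TA ∨
        R.filter (fun x => f x = c) ⊆ TB ∨ R.filter (fun x => f x = c) ⊆ B \ TB := by
      by_cases c0 : c = 0
      · left
        intro x hx
        rw [Finset.mem_filter] at hx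
        by_contra h1
        by_cases h2 : x ∈ A
        · simp [f, h1, h2, c0] at hx
        · by_cases h3 : x ∈ TB
          · simp [f, h1, h2, h3, c0] at hx
          · simp [f, h1, h2, h3, c0] at hx
      by_cases c1 : c = 1
      · right; left
        intro x hx
        rw [Finset.mem_filter] at hx
        by_cases h1 : x ∈ TA
        · simp [f, h1, c1] at hx
        · by_cases h2 : x ∈ A
          · exact Finset.mem_sdiff.mpr ⟨h2, h1⟩
          · by_cases h3 : x ∈ TB
            · simp [f, h1, h2, h3, c1] at hx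
            · simp [f, h1, h2, h3, c1] at hx
      by_cases c2 : c = 2
      · right; right; left
        intro x hx
        rw [Finset.mem_filter] at hx
        by_cases h1 : x ∈ TA
        · simp [f, h1, c2] at hx
        · by_cases h2 : x ∈ A
          · simp [f, h1, h2, c2] at hx
          · by_contra h3
            simp [f, h1, h2, h3, c2] at hx
      · right; right; right
        intro x hx
        rw [Finset.mem_filter] at hx
        by_cases h1 : x ∈ TA
        · simp only [f, h1, if_true] at hx
          exact absurd hx.2.symm c0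
        · by_cases h2 : x ∈ A
          · simp only [f, h1, h2, if_true, if_false] at hx
            exact absurd hx.2.symm c1
          · by_cases h3 : x ∈ TB
            · simp only [f, h1, h2, h3, if_true, if_false] at hx
              exact absurd hx.2.symm c2
            · exact Finset.mem_sdiff.mpr ⟨(hcases x hx.1).resolve_left h2, h3⟩
    rcases hsub with h | h | h | h
    · have := Finset.card_le_card h; omega
    · have := Finset.card_le_card h; omega
    · have := Finset.card_le_card h; omega
    · have := Finset.card_le_card h; omega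
  have hsub : SK G K R f c ⊆ (R.filter (fun x => f x = c)).biUnion (fun u => nb G K u) := by
    intro v hv
    obtain ⟨hvK, u, hu, hvu, hfu⟩ := Finset.mem_filter.mp hv
    exact Finset.mem_biUnion.mpr ⟨u, Finset.mem_filter.mpr ⟨hu, hfu⟩, mem_nb.mpr ⟨hvK, hvu.symm⟩⟩
  have hle : ((R.filter (fun x => f x = c)).biUnion (fun u => nb G K u)).card ≤
      (R.filter (fun x => f x = c)).card * 1 :=
    Finset.card_biUnion_le_card_mul _ _ _ (fun u hu => hnb1 u (Finset.mem_filter.mp hu).1)
  have h1 := Finset.card_le_card hsub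
  omega

end Pool.Agent.Q224.DJ
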