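import Pool.Agent.Q224.DJ.Forced

/-!
# Extension of a good colouring (Hall)
-/

set_option autoImplicit false

namespace Pool.Agent.Q224.DJ

open Finset Classical

theorem ext : S_EXT := by
  intro V _ G K R f hyp hgood
  obtain ⟨hcol, hone, hpair⟩ := hgood
  let t : {x // x ∈ K} → Finset (Fin 7) := fun v => univ.filter (fun c => ¬ Sees G R f v.1 c)
  have hseen : ∀ v : {x // x ∈ K}, (univ.filter (fun c => Sees G R f v.1 c)).card ≤ 2 := by
    intro v
    refine le_trans (Finset.card_le_card (t := (nb G R v.1).image f) ?_)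
      (le_trans Finset.card_image_le (nbR_K hyp v.2))
    intro c hc
    obtain ⟨u, hu, hvu, hfc⟩ := (Finset.mem_filter.mp hc).2
    exact Finset.mem_image.mpr ⟨u, mem_nb.mpr ⟨hu, hvu⟩, hfc⟩
  have hKcard : Fintype.card {x // x ∈ K} = 7 := by
    rw [Fintype.card_coe]; exact hyp.2.2.1
  have hall : ∀ s : Finset {x // x ∈ K}, s.card ≤ (s.biUnion t).card := by
    intro s
    rcases s.eq_empty_or_nonempty with rfl | ⟨v0, hv0⟩
    · simp
    have hs7 : s.card ≤ 7 := by
      rw [← hKcard]; exact Finset.card_le_univ s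
    have hcompl : ∀ c, c ∉ s.biUnion t → ∀ v ∈ s, Sees G R f v.1 c := by
      intro c hc v hv
      by_contra h
      exact hc (Finset.mem_biUnion.mpr ⟨v, hv, Finset.mem_filter.mpr ⟨Finset.mem_univ _, h⟩⟩)
    have h2 : ((s.biUnion t)ᶜ).card ≤ 2 := by
      refine le_trans (Finset.card_le_card ?_) (hseen v0)
      intro c hc
      exact Finset.mem_filter.mpr ⟨Finset.mem_univ _, hcompl c (Finset.mem_compl.mp hc) v0 hv0⟩
    have hc7 : (s.biUnion t).card + ((s.biUnion t)ᶜ).card = 7 := by
      have := Finset.card_add_card_compl (s.biUnion t)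
      simpa using this
    by_contra hlt
    push Not at hlt
    have hs56 : s.card = 6 ∨ s.card = 7 := by omega
    rcases hs56 with hs | hs
    · -- six
      have h1 : 1 < ((s.biUnion t)ᶜ).card := by omega
      obtain ⟨c, hc, c', hc', hcc⟩ := Finset.one_lt_card.mp h1
      obtain ⟨v, hv, v', hv', hvv, hn, hn'⟩ := hpair c c' hcc
      have hA := hcompl c (Finset.mem_compl.mp hc)
      have hB := hcompl c' (Finset.mem_compl.mp hc')
      have hvs : (⟨v, hv⟩ : {x // x ∈ K}) ∉ s := fun h => hn ⟨hA _ h, hB _ h⟩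
      have hvs' : (⟨v', hv'⟩ : {x // x ∈ K}) ∉ s := fun h => hn' ⟨hA _ h, hB _ h⟩
      have h8 : (insert (⟨v, hv⟩ : {x // x ∈ K}) (insert (⟨v', hv'⟩ : {x // x ∈ K}) s)).card = 8 := by
        rw [Finset.card_insert_of_notMem, Finset.card_insert_of_notMem hvs', hs]
        intro h
        rw [Finset.mem_insert] at h
        rcases h with h | h
        · exact hvv (congrArg Subtype.val h)
        · exact hvs h
      have := Finset.card_le_univ (insert (⟨v, hv⟩ : {x // x ∈ K})
        (insert (⟨v', hv'⟩ : {x // x ∈ K}) s))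
      omega
    · -- seven
      have hsu : s = univ := by
        apply Finset.eq_univ_of_card
        rw [hs, hKcard]
      have h1 : 0 < ((s.biUnion t)ᶜ).card := by omega
      obtain ⟨c, hc⟩ := Finset.card_pos.mp h1
      obtain ⟨v, hv, hn⟩ := hone c
      exact hn (hcompl c (Finset.mem_compl.mp hc) ⟨v, hv⟩ (by rw [hsu]; exact Finset.mem_univ _))
  obtain ⟨g, hinj, hg⟩ := (Finset.all_card_le_biUnion_card_iff_exists_injective t).mp hall
  have hgs : ∀ v, ¬ Sees G R f v.1 (g v) := fun v => (Finset.mem_filter.mp (hg v)).2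
  refine ⟨SimpleGraph.Coloring.mk (fun x => if h : x ∈ K then g ⟨x, h⟩ else f x) ?_⟩
  intro x y hxy
  have hR : ∀ z, z ∉ K → z ∈ R := fun z hz => (hyp.1 z).resolve_left hz
  by_cases hx : x ∈ K <;> by_cases hy : y ∈ K
  · simp only [hx, hy, dif_pos]
    intro h
    exact G.ne_of_adj hxy (congrArg Subtype.val (hinj h))
  · simp only [hx, hy, dif_pos, dif_neg, not_false_eq_true]
    intro h
    exact hgs ⟨x, hx⟩ ⟨y, hR y hy, hxy, h.symm⟩
  · simp only [hx, hy, dif_pos, dif_neg, not_false_eq_true]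
    intro h
    exact hgs ⟨y, hy⟩ ⟨x, hR x hx, hxy.symm, h⟩
  · simp only [hx, hy, dif_neg, not_false_eq_true]
    exact hcol x (hR x hx) y (hR y hy) hxy

end Pool.Agent.Q224.DJ
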