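import Pool.Agent.Q224.DJ.Stm

/-!
# The forced case
-/

set_option autoImplicit false

namespace Pool.Agent.Q224.DJ

open Finset Classical

section basics

variable {V : Type} [Fintype V] {G : SimpleGraph V} {K R : Finset V}

theorem mem_nb {W : Finset V} {x y : V} : y ∈ nb G W x ↔ y ∈ W ∧ G.Adj x y := by
  simp [nb]

/-- A vertex has at most eight neighbours in the two parts together. -/
theorem nb_add (hyp : Hyp G K R) (x : V) : (nb G K x).card + (nb G R x).card ≤ 8 := by
  have hd : Disjoint (nb G K x) (nb G R x) := by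
    rw [Finset.disjoint_left]
    intro y h1 h2
    exact hyp.2.1 y (mem_nb.mp h1).1 (mem_nb.mp h2).1
  rw [← Finset.card_union_of_disjoint hd]
  refine le_trans (Finset.card_le_card ?_) (hyp.2.2.2.2.2.1 x)
  intro y hy
  rw [Finset.mem_union] at hy
  rcases hy with h | h
  · exact mem_nb.mpr ⟨Finset.mem_univ _, (mem_nb.mp h).2⟩
  · exact mem_nb.mpr ⟨Finset.mem_univ _, (mem_nb.mp h).2⟩

/-- A vertex of the clique has at most two neighbours outside. -/
theorem nbR_K (hyp : Hyp G K R) {v : V} (hv : v ∈ K) : (nb G R v).card ≤ 2 := by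
  have h1 := nb_add hyp v
  have h2 : K.erase v ⊆ nb G K v := by
    intro y hy
    rw [Finset.mem_erase] at hy
    exact mem_nb.mpr ⟨hy.2, hyp.2.2.2.1 v hv y hy.2 hy.1.symm⟩
  have h3 : (K.erase v).card = 6 := by
    rw [Finset.card_erase_of_mem hv, hyp.2.2.1]
  have h4 := Finset.card_le_card h2
  omega

/-- A vertex outside has at most six neighbours in the clique. -/
theorem nbK_R (hyp : Hyp G K R) {u : V} (hu : u ∈ R) : (nb G K u).card ≤ 6 := by
  by_contra h
  push Not at h
  have h1 : nb G K u = K := by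
    apply Finset.eq_of_subset_of_card_le
    · intro y hy; exact (mem_nb.mp hy).1
    · rw [hyp.2.2.1]; omega
  have huK : u ∉ K := fun h => hyp.2.1 u h hu
  refine hyp.2.2.2.2.2.2 (insert u K) (Finset.subset_univ _) ?_ ?_
  · rw [Finset.card_insert_of_notMem huK, hyp.2.2.1]
  · intro x hx y hy hxy
    rw [Finset.mem_insert] at hx hy
    have hall : ∀ z ∈ K, G.Adj u z := by
      intro z hz
      rw [← h1] at hz
      exact (mem_nb.mp hz).2
    rcases hx with rfl | hx <;> rcases hy with rfl | hy
    · exact absurd rfl hxy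
    · exact hall y hy
    · exact (hall x hx).symm
    · exact hyp.2.2.2.1 x hx y hy hxy

/-- There is a colour outside a set of at most six colours. -/
theorem exists_colour (s : Finset (Fin 7)) (hs : s.card ≤ 6) : ∃ a, a ∉ s := by
  by_contra h
  push Not at h
  have : s = univ := by ext x; simp [h x]
  rw [this] at hs
  simp at hs

/-- Colouring one more vertex. -/
theorem col_update {f : V → Fin 7} {h : V} {a : Fin 7} (hf : Col G (R.erase h) f)
    (ha : ∀ u ∈ R, G.Adj h u → f u ≠ a) : Col G R (Function.update f h a) := by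
  intro x hx y hy hxy
  have hne := G.ne_of_adj hxy
  by_cases hxh : x = h
  · subst hxh
    rw [Function.update_self, Function.update_of_ne hne.symm]
    exact (ha y hy hxy).symm
  · by_cases hyh : y = h
    · subst hyh
      rw [Function.update_self, Function.update_of_ne hne]
      exact ha x hx hxy.symm
    · rw [Function.update_of_ne hxh, Function.update_of_ne hyh]
      exact hf x (Finset.mem_erase.mpr ⟨hxh, hx⟩) y (Finset.mem_erase.mpr ⟨hyh, hy⟩) hxy

theorem sees_update {f : V → Fin 7} {h : V} {a : Fin 7} (_hR : h ∈ R) {v : V} {c : Fin 7}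
    (hs : Sees G R (Function.update f h a) v c) :
    (G.Adj v h ∧ a = c) ∨ Sees G (R.erase h) f v c := by
  obtain ⟨u, hu, hvu, hc⟩ := hs
  by_cases huh : u = h
  · subst huh
    rw [Function.update_self] at hc
    exact Or.inl ⟨hvu, hc⟩
  · rw [Function.update_of_ne huh] at hc
    exact Or.inr ⟨u, Finset.mem_erase.mpr ⟨huh, hu⟩, hvu, hc⟩

end basics

section forced

variable {V : Type} [Fintype V] {G : SimpleGraph V} {K R : Finset V}

/-- The structure found in the forced case. -/
theorem structure_ex (hyp : Hyp G K R) {h : V}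
    (hall : ∀ v ∈ nb G K h, ∃ u ∈ R.erase h, G.Adj v u)
    (htwo : ∃ b ∈ BS G K R h, ∃ b' ∈ BS G K R h, b ≠ b')
    (hforced : ∀ b ∈ BS G K R h, ∀ b' ∈ BS G K R h, b ≠ b' → ¬ G.Adj b b' ∧
      ∃ Q : Finset V, Q ⊆ R.erase h ∧ Q.card = 6 ∧ Clq G Q ∧ ∀ q ∈ Q, G.Adj q b ∧ G.Adj q b') :
    ∃ Q C : Finset V, Q ⊆ R.erase h ∧ C ⊆ R.erase h ∧ Disjoint Q C ∧ Q.card = 6 ∧ Clq G Q ∧
      2 ≤ C.card ∧ C.card ≤ 3 ∧ (∀ q ∈ Q, ∀ c ∈ C, G.Adj q c) ∧
      (∀ c ∈ C, ∀ c' ∈ C, ¬ G.Adj c c') ∧
      (∀ x ∈ R.erase h, x ∉ Q → x ∉ C → ∃ q ∈ Q, ¬ G.Adj q x) ∧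
      (∀ v ∈ nb G K h, ∀ u ∈ R.erase h, G.Adj v u → u ∈ C) := by
  obtain ⟨b1, hb1, b2, hb2, h12⟩ := htwo
  obtain ⟨n12, Q, hQR, hQ6, hQc, hQb⟩ := hforced b1 hb1 b2 hb2 h12
  have hbR : ∀ b ∈ BS G K R h, b ∈ R.erase h := by
    intro b hb
    simp only [BS, Finset.mem_filter] at hb
    exact hb.1
  have hbK : ∀ b ∈ BS G K R h, 1 ≤ (nb G K b).card := by
    intro b hb
    simp only [BS, Finset.mem_filter] at hb
    obtain ⟨_, v, hv, hvb⟩ := hb
    apply Finset.card_pos.mpr
    exact ⟨v, mem_nb.mpr ⟨(mem_nb.mp hv).1, hvb.symm⟩⟩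
  -- all vertices of the set are joined to Q
  have hjoin : ∀ b ∈ BS G K R h, ∀ q ∈ Q, G.Adj q b := by
    intro b3 hb3
    by_cases h31 : b3 = b1
    · subst h31; intro q hq; exact (hQb q hq).1
    by_cases h32 : b3 = b2
    · subst h32; intro q hq; exact (hQb q hq).2
    obtain ⟨n13, Q', hQR', hQ6', hQc', hQb'⟩ := hforced b1 hb1 b3 hb3 (fun h => h31 h.symm)
    by_cases hQQ : Q = Q'
    · subst hQQ; intro q hq; exact (hQb' q hq).2
    exfalso
    have hsub : Q ∪ Q' ⊆ nb G R b1 := by
      intro x hx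
      rw [Finset.mem_union] at hx
      rcases hx with hx | hx
      · exact mem_nb.mpr ⟨Finset.mem_of_mem_erase (hQR hx), (hQb x hx).1.symm⟩
      · exact mem_nb.mpr ⟨Finset.mem_of_mem_erase (hQR' hx), (hQb' x hx).1.symm⟩
    have hle : (Q ∪ Q').card ≤ 7 := by
      have h1 := Finset.card_le_card hsub
      have h2 := nb_add hyp b1
      have h3 := hbK b1 hb1
      omega
    have hge : 7 ≤ (Q ∪ Q').card := by
      by_contra hlt
      push Not at hlt
      have h1 : Q = Q ∪ Q' := Finset.eq_of_subset_of_card_le Finset.subset_union_left (by omega)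
      have h2 : Q' = Q ∪ Q' := Finset.eq_of_subset_of_card_le Finset.subset_union_right (by omega)
      exact hQQ (h1.trans h2.symm)
    have hint : (Q ∩ Q').Nonempty := by
      rw [← Finset.card_pos]
      have := Finset.card_union_add_card_inter Q Q'
      omega
    obtain ⟨q, hq⟩ := hint
    rw [Finset.mem_inter] at hq
    have hb1n : b1 ∉ Q ∪ Q' := by
      intro hb
      exact G.ne_of_adj (mem_nb.mp (hsub hb)).2 rfl
    have hb2n : b2 ∉ Q ∪ Q' := by
      intro hb
      exact n12 (mem_nb.mp (hsub hb)).2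
    have hb3n : b3 ∉ Q ∪ Q' := by
      intro hb
      exact n13 (mem_nb.mp (hsub hb)).2
    have hsub2 : insert b1 (insert b2 (insert b3 ((Q ∪ Q').erase q))) ⊆ nb G univ q := by
      intro x hx
      rw [Finset.mem_insert, Finset.mem_insert, Finset.mem_insert, Finset.mem_erase] at hx
      refine mem_nb.mpr ⟨Finset.mem_univ _, ?_⟩
      rcases hx with rfl | rfl | rfl | ⟨hxq, hx⟩
      · exact (hQb q hq.1).1
      · exact (hQb q hq.1).2
      · exact (hQb' q hq.2).2
      · rw [Finset.mem_union] at hx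
        rcases hx with hx | hx
        · exact hQc q hq.1 x hx hxq.symm
        · exact hQc' q hq.2 x hx hxq.symm
    have h9 : (insert b1 (insert b2 (insert b3 ((Q ∪ Q').erase q)))).card = 9 := by
      rw [Finset.card_insert_of_notMem, Finset.card_insert_of_notMem,
        Finset.card_insert_of_notMem, Finset.card_erase_of_mem (Finset.mem_union_left _ hq.1)]
      · omega
      · intro hx; exact hb3n (Finset.mem_of_mem_erase hx)
      · intro hx
        rw [Finset.mem_insert] at hx
        rcases hx with hx | hx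
        · exact h32 hx.symm
        · exact hb2n (Finset.mem_of_mem_erase hx)
      · intro hx
        rw [Finset.mem_insert, Finset.mem_insert] at hx
        rcases hx with hx | hx | hx
        · exact h12 hx
        · exact h31 hx.symm
        · exact hb1n (Finset.mem_of_mem_erase hx)
    have h8 := hyp.2.2.2.2.2.1 q
    have := Finset.card_le_card hsub2
    omega
  set C : Finset V := (R.erase h).filter (fun x => x ∉ Q ∧ ∀ q ∈ Q, G.Adj q x) with hC
  have memC : ∀ x, x ∈ C ↔ x ∈ R.erase h ∧ x ∉ Q ∧ ∀ q ∈ Q, G.Adj q x := by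
    intro x; rw [hC, Finset.mem_filter]
  have hBC : ∀ b ∈ BS G K R h, b ∈ C := by
    intro b hb
    rw [memC]
    refine ⟨hbR b hb, ?_, hjoin b hb⟩
    intro hbQ
    exact G.ne_of_adj (hjoin b hb b hbQ) rfl
  have hdisj : Disjoint Q C := by
    rw [Finset.disjoint_left]
    intro x hx hxC
    exact ((memC x).mp hxC).2.1 hx
  refine ⟨Q, C, hQR, Finset.filter_subset _ _, hdisj, hQ6, hQc, ?_, ?_, ?_, ?_, ?_, ?_⟩
  · have : ({b1, b2} : Finset V) ⊆ C := by
      intro x hx
      rw [Finset.mem_insert, Finset.mem_singleton] at hx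
      rcases hx with rfl | rfl
      · exact hBC _ hb1
      · exact hBC _ hb2
    have h1 := Finset.card_le_card this
    rw [Finset.card_pair h12] at h1
    exact h1
  · -- at most three
    have hQne : Q.Nonempty := by rw [← Finset.card_pos]; omega
    obtain ⟨q, hq⟩ := hQne
    have hsub : Q.erase q ∪ C ⊆ nb G univ q := by
      intro x hx
      rw [Finset.mem_union, Finset.mem_erase] at hx
      refine mem_nb.mpr ⟨Finset.mem_univ _, ?_⟩
      rcases hx with ⟨hxq, hx⟩ | hx
      · exact hQc q hq x hx hxq.symm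
      · exact ((memC x).mp hx).2.2 q hq
    have hd : Disjoint (Q.erase q) C := hdisj.mono_left (Finset.erase_subset _ _)
    have h1 := Finset.card_le_card hsub
    rw [Finset.card_union_of_disjoint hd, Finset.card_erase_of_mem hq, hQ6] at h1
    have := hyp.2.2.2.2.2.1 q
    omega
  · intro q hq c hc
    exact ((memC c).mp hc).2.2 q hq
  · intro c hc c' hc' hadj
    have h1 := (memC c).mp hc
    have h2 := (memC c').mp hc'
    have hne := G.ne_of_adj hadj
    refine hyp.2.2.2.2.2.2 (insert c (insert c' Q)) (Finset.subset_univ _) ?_ ?_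
    · rw [Finset.card_insert_of_notMem, Finset.card_insert_of_notMem h2.2.1, hQ6]
      intro hx
      rw [Finset.mem_insert] at hx
      rcases hx with hx | hx
      · exact hne hx
      · exact h1.2.1 hx
    · intro x hx y hy hxy
      rw [Finset.mem_insert, Finset.mem_insert] at hx hy
      rcases hx with rfl | rfl | hx <;> rcases hy with rfl | rfl | hy
      · exact absurd rfl hxy
      · exact hadj
      · exact (h1.2.2 y hy).symm
      · exact hadj.symm
      · exact absurd rfl hxy
      · exact (h2.2.2 y hy).symm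
      · exact h1.2.2 x hx
      · exact h2.2.2 x hx
      · exact hQc x hx y hy hxy
  · intro x hx hxQ hxC
    by_contra hcon
    push Not at hcon
    exact hxC ((memC x).mpr ⟨hx, hxQ, hcon⟩)
  · intro v hv u hu hvu
    apply hBC
    simp only [BS, Finset.mem_filter]
    exact ⟨hu, v, hv, hvu⟩

/-- The colouring of the forced case. -/
theorem colouring_ex (hyp : Hyp G K R) {h : V} (hh : h ∈ R) {Q C : Finset V}
    (hQR : Q ⊆ R.erase h) (hCR : C ⊆ R.erase h) (hdisj : Disjoint Q C) (hQ6 : Q.card = 6)
    (hQc : Clq G Q) (hC2 : 2 ≤ C.card) (hQC : ∀ q ∈ Q, ∀ c ∈ C, G.Adj q c)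
    (hCC : ∀ c ∈ C, ∀ c' ∈ C, ¬ G.Adj c c')
    (hrest : ∀ x ∈ R.erase h, x ∉ Q → x ∉ C → ∃ q ∈ Q, ¬ G.Adj q x) :
    ∃ f : V → Fin 7, Col G (R.erase h) f ∧ (∀ x ∈ C, f x = 6) ∧
      ∀ x ∈ R.erase h, f x = 6 → x ∈ C := by
  set S : Finset V := ((R.erase h) \ Q) \ C with hS
  have memS : ∀ x, x ∈ S ↔ x ∈ R.erase h ∧ x ∉ Q ∧ x ∉ C := by
    intro x
    rw [hS, Finset.mem_sdiff, Finset.mem_sdiff]
    tauto
  have hScard : S.card ≤ 5 := by
    have h1 : ((R.erase h) \ Q).card = (R.erase h).card - Q.card :=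
      Finset.card_sdiff_of_subset hQR
    have h2 : C ⊆ (R.erase h) \ Q := by
      intro x hx
      rw [Finset.mem_sdiff]
      exact ⟨hCR hx, fun hq => (Finset.disjoint_left.mp hdisj) hq hx⟩
    have h3 : S.card = ((R.erase h) \ Q).card - C.card := Finset.card_sdiff_of_subset h2
    have h4 : (R.erase h).card = R.card - 1 := Finset.card_erase_of_mem hh
    have h5 : R.card ≤ 14 := hyp.2.2.2.2.1
    omega
  have hone : ∀ q ∈ Q, ∀ r ∈ S, ∀ r' ∈ S, r ≠ r' → G.Adj q r → ¬ G.Adj q r' := by
    intro q hq r hr r' hr' hne h1 h2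
    have hsub : insert r (insert r' (Q.erase q ∪ C)) ⊆ nb G univ q := by
      intro x hx
      rw [Finset.mem_insert, Finset.mem_insert, Finset.mem_union, Finset.mem_erase] at hx
      refine mem_nb.mpr ⟨Finset.mem_univ _, ?_⟩
      rcases hx with rfl | rfl | ⟨hxq, hx⟩ | hx
      · exact h1
      · exact h2
      · exact hQc q hq x hx hxq.symm
      · exact hQC q hq x hx
    have hd : Disjoint (Q.erase q) C := hdisj.mono_left (Finset.erase_subset _ _)
    have m1 := (memS r).mp hr
    have m2 := (memS r').mp hr'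
    have hc : (insert r (insert r' (Q.erase q ∪ C))).card = 7 + C.card := by
      rw [Finset.card_insert_of_notMem, Finset.card_insert_of_notMem,
        Finset.card_union_of_disjoint hd, Finset.card_erase_of_mem hq, hQ6]
      · omega
      · intro hx
        rw [Finset.mem_union, Finset.mem_erase] at hx
        rcases hx with hx | hx
        · exact m2.2.1 hx.2
        · exact m2.2.2 hx
      · intro hx
        rw [Finset.mem_insert, Finset.mem_union, Finset.mem_erase] at hx
        rcases hx with hx | hx | hx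
        · exact hne hx
        · exact m1.2.1 hx.2
        · exact m1.2.2 hx
    have h8 := hyp.2.2.2.2.2.1 q
    have := Finset.card_le_card hsub
    omega
  -- Hall
  obtain ⟨ρ, hρinj, hρ⟩ := (Finset.all_card_le_biUnion_card_iff_exists_injective
    (fun r : S => Q.filter (fun q => ¬ G.Adj q r.val))).mp (by
      intro Y
      rcases Nat.lt_or_ge 1 Y.card with hY | hY
      · obtain ⟨r, hr, r', hr', hne⟩ := Finset.one_lt_card.mp hY
        have hall : Q ⊆ Y.biUnion (fun r : S => Q.filter (fun q => ¬ G.Adj q r.val)) := by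
          intro q hq
          rw [Finset.mem_biUnion]
          by_cases hqr : G.Adj q r.val
          · refine ⟨r', hr', ?_⟩
            rw [Finset.mem_filter]
            refine ⟨hq, ?_⟩
            exact hone q hq r.val r.2 r'.val r'.2 (fun h => hne (Subtype.ext h)) hqr
          · refine ⟨r, hr, ?_⟩
            rw [Finset.mem_filter]
            exact ⟨hq, hqr⟩
        have h1 := Finset.card_le_card hall
        have h2 : Y.card ≤ Fintype.card S := Finset.card_le_univ Y
        rw [Fintype.card_coe] at h2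
        omega
      · rcases Nat.eq_zero_or_pos Y.card with h0 | h0
        · rw [h0]; exact Nat.zero_le _
        · have h1 : Y.card = 1 := by omega
          rw [h1]
          obtain ⟨r, hr⟩ := Finset.card_pos.mp h0
          have m := (memS r.val).mp r.2
          obtain ⟨q, hq, hqr⟩ := hrest r.val m.1 m.2.1 m.2.2
          apply Finset.card_pos.mpr
          exact ⟨q, Finset.mem_biUnion.mpr ⟨r, hr, Finset.mem_filter.mpr ⟨hq, hqr⟩⟩⟩)
  have hρ' : ∀ r : S, ρ r ∈ Q ∧ ¬ G.Adj (ρ r) r.val := by
    intro r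
    exact Finset.mem_filter.mp (hρ r)
  obtain ⟨eQ⟩ : Nonempty (Q ≃ Fin 6) := ⟨Finset.equivFinOfCardEq hQ6⟩
  -- the colours of Q
  obtain ⟨κ, hκinj, hκ6⟩ : ∃ κ : V → Fin 7, (∀ x ∈ Q, ∀ y ∈ Q, κ x = κ y → x = y) ∧
      ∀ x ∈ Q, κ x ≠ 6 := by
    refine ⟨fun x => if hx : x ∈ Q then (eQ ⟨x, hx⟩).castSucc else 6, ?_, ?_⟩
    · intro x hx y hy hxy
      simp only [hx, hy, dite_true] at hxy
      have h1 := Fin.castSucc_injective 6 hxy
      have := eQ.injective h1
      exact congrArg Subtype.val this
    · intro x hx h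
      simp only [hx, dite_true] at h
      have h2 : (eQ ⟨x, hx⟩).castSucc.val < 6 := by
        rw [Fin.val_castSucc]; exact (eQ ⟨x, hx⟩).isLt
      rw [h] at h2
      exact absurd h2 (by decide)
  refine ⟨fun x => if x ∈ Q then κ x else if hx : x ∈ S then κ (ρ ⟨x, hx⟩) else 6, ?_, ?_, ?_⟩
  · intro x hx y hy hxy
    have hne := G.ne_of_adj hxy
    have key : ∀ z ∈ R.erase h, z ∉ Q → z ∉ S → z ∈ C := by
      intro z hz h1 h2
      by_contra h3
      exact h2 ((memS z).mpr ⟨hz, h1, h3⟩)
    by_cases hxQ : x ∈ Q <;> by_cases hyQ : y ∈ Q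
    · simp only [hxQ, hyQ, if_true]
      intro h; exact hne (hκinj x hxQ y hyQ h)
    · by_cases hyS : y ∈ S
      · simp only [hxQ, hyQ, hyS, if_true, if_false, dite_true]
        intro h
        have h1 := hρ' ⟨y, hyS⟩
        have h2 := hκinj x hxQ _ h1.1 h
        rw [← h2] at h1
        exact h1.2 hxy
      · simp only [hxQ, hyQ, hyS, if_true, if_false, dite_false]
        exact hκ6 x hxQ
    · by_cases hxS : x ∈ S
      · simp only [hxQ, hyQ, hxS, if_true, if_false, dite_true]
        intro h
        have h1 := hρ' ⟨x, hxS⟩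
        have h2 := hκinj _ h1.1 y hyQ h
        rw [h2] at h1
        exact h1.2 hxy.symm
      · simp only [hxQ, hyQ, hxS, if_true, if_false, dite_false]
        exact (hκ6 y hyQ).symm
    · by_cases hxS : x ∈ S <;> by_cases hyS : y ∈ S
      · simp only [hxQ, hyQ, hxS, hyS, if_false, dite_true]
        intro h
        have h1 := hκinj _ (hρ' ⟨x, hxS⟩).1 _ (hρ' ⟨y, hyS⟩).1 h
        have h2 := hρinj h1
        exact hne (congrArg Subtype.val h2)
      · simp only [hxQ, hyQ, hxS, hyS, if_false, dite_true, dite_false]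
        exact hκ6 _ (hρ' ⟨x, hxS⟩).1
      · simp only [hxQ, hyQ, hxS, hyS, if_false, dite_true, dite_false]
        exact (hκ6 _ (hρ' ⟨y, hyS⟩).1).symm
      · exact absurd hxy (hCC x (key x hx hxQ hxS) y (key y hy hyQ hyS))
  · intro x hx
    have h1 : x ∉ Q := fun hq => (Finset.disjoint_left.mp hdisj) hq hx
    have h2 : x ∉ S := fun hs => ((memS x).mp hs).2.2 hx
    simp only [h1, h2, if_false, dite_false]
  · intro x hx h6
    by_contra hxC
    by_cases hxQ : x ∈ Q
    · simp only [hxQ, if_true] at h6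
      exact hκ6 x hxQ h6
    · have hxS : x ∈ S := (memS x).mpr ⟨hx, hxQ, hxC⟩
      simp only [hxQ, hxS, if_false, dite_true] at h6
      exact hκ6 _ (hρ' ⟨x, hxS⟩).1 h6

/-- The forced case. -/
theorem forced : S_FORCED := by
  intro V _ G K R h hyp hh h4 hall htwo hforced
  obtain ⟨Q, C, hQR, hCR, hdisj, hQ6, hQc, hC2, hC3, hQC, hCC, hrest, hNC⟩ :=
    structure_ex hyp hall htwo hforced
  obtain ⟨f, hf, hfC, hf6⟩ := colouring_ex hyp hh hQR hCR hdisj hQ6 hQc hC2 hQC hCC hrest
  -- degrees
  have hRdeg : ∀ c ∈ C, 6 ≤ (nb G R c).card := by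
    intro c hc
    have hsub : Q ⊆ nb G R c := by
      intro q hq
      exact mem_nb.mpr ⟨Finset.mem_of_mem_erase (hQR hq), (hQC q hq c hc).symm⟩
    have := Finset.card_le_card hsub
    omega
  have hKdeg : ∀ c ∈ C, (nb G K c).card ≤ 2 := by
    intro c hc
    have h1 := hRdeg c hc
    have h2 := nb_add hyp c
    omega
  have hNh : (nb G R h).card ≤ 4 := by
    have := nb_add hyp h
    omega
  set NC : Finset V := C.biUnion (fun c => nb G K c) with hNCdef
  have memNC : ∀ v, v ∈ NC ↔ ∃ c ∈ C, v ∈ K ∧ G.Adj c v := by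
    intro v
    rw [hNCdef, Finset.mem_biUnion]
    constructor
    · rintro ⟨c, hc, hv⟩; exact ⟨c, hc, mem_nb.mp hv⟩
    · rintro ⟨c, hc, hv⟩; exact ⟨c, hc, mem_nb.mpr hv⟩
  have hNCcard : NC.card ≤ 2 * C.card := by
    have := Finset.card_biUnion_le_card_mul C (fun c => nb G K c) 2 hKdeg
    rw [hNCdef, Nat.mul_comm]
    exact this
  have hNsub : nb G K h ⊆ NC := by
    intro v hv
    obtain ⟨u, hu, hvu⟩ := hall v hv
    exact (memNC v).mpr ⟨u, hNC v hv u hu hvu, (mem_nb.mp hv).1, hvu.symm⟩
  have hKcard : K.card = 7 := hyp.2.2.1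
  obtain ⟨v1, hv1K, hv1⟩ : ∃ v1 ∈ K, v1 ∉ NC := by
    by_contra hcon
    push Not at hcon
    have h1 : K ⊆ NC := hcon
    have := Finset.card_le_card h1
    omega
  have hv1h : ¬ G.Adj v1 h := by
    intro hadj
    exact hv1 (hNsub (mem_nb.mpr ⟨hv1K, hadj.symm⟩))
  -- who does not see six
  have no6 : ∀ v ∈ K, v ∉ NC → ¬ Sees G (R.erase h) f v 6 := by
    rintro v hvK hv ⟨u, hu, hvu, hu6⟩
    exact hv ((memNC v).mpr ⟨u, hf6 u hu hu6, hvK, hvu.symm⟩)
  -- what the neighbours of h see
  have seeN : ∀ v ∈ nb G K h, ∀ c, Sees G (R.erase h) f v c → c = 6 := by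
    rintro v hv c ⟨u, hu, hvu, hc⟩
    rw [← hc]
    exact hfC u (hNC v hv u hu hvu)
  obtain ⟨n1, hn1, n2, hn2, hn12⟩ := Finset.one_lt_card.mp (show 1 < (nb G K h).card by omega)
  have memK : ∀ v ∈ nb G K h, v ∈ K := fun v hv => (mem_nb.mp hv).1
  have seeU : ∀ (a : Fin 7), ∀ v ∈ nb G K h, ∀ c, Sees G R (Function.update f h a) v c →
      c = a ∨ c = 6 := by
    intro a v hv c hs
    rcases sees_update hh hs with ⟨_, h1⟩ | h1
    · exact Or.inl h1.symm
    · exact Or.inr (seeN v hv c h1)
  by_cases hV7 : NC ⊆ nb G K h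
  · -- no further vertex sees six
    have hNCeq : NC = nb G K h := Finset.Subset.antisymm hV7 hNsub
    by_cases h5 : (nb G K h).card ≤ 5
    · -- another vertex outside
      obtain ⟨v2, hv2K, hv2, hv12⟩ : ∃ v2 ∈ K, v2 ∉ NC ∧ v1 ≠ v2 := by
        by_contra hcon
        push Not at hcon
        have h1 : K ⊆ insert v1 NC := by
          intro v hv
          rw [Finset.mem_insert]
          by_cases hvN : v ∈ NC
          · exact Or.inr hvN
          · exact Or.inl (hcon v hv hvN).symm
        have h2 := Finset.card_le_card h1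
        have h3 := Finset.card_insert_le v1 NC
        rw [hNCeq] at h3 h2
        omega
      have hv2h : ¬ G.Adj v2 h := by
        intro hadj
        exact hv2 (hNsub (mem_nb.mpr ⟨hv2K, hadj.symm⟩))
      obtain ⟨a, ha⟩ := exists_colour ((nb G R h).image f ∪ (nb G R v1).image f) (by
        refine le_trans (Finset.card_union_le _ _) ?_
        have h1 := Finset.card_image_le (s := nb G R h) (f := f)
        have h2 := Finset.card_image_le (s := nb G R v1) (f := f)
        have h3 := nbR_K hyp hv1K
        omega)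
      rw [Finset.mem_union, not_or] at ha
      have ha1 : ∀ u ∈ R, G.Adj h u → f u ≠ a := by
        intro u hu hadj hfu
        exact ha.1 (Finset.mem_image.mpr ⟨u, mem_nb.mpr ⟨hu, hadj⟩, hfu⟩)
      have ha2 : ∀ u ∈ R, G.Adj v1 u → f u ≠ a := by
        intro u hu hadj hfu
        exact ha.2 (Finset.mem_image.mpr ⟨u, mem_nb.mpr ⟨hu, hadj⟩, hfu⟩)
      have s1a : ¬ Sees G R (Function.update f h a) v1 a := by
        intro hs
        rcases sees_update hh hs with ⟨h1, _⟩ | ⟨u, hu, hadj, hfu⟩
        · exact hv1h h1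
        · exact ha2 u (Finset.mem_of_mem_erase hu) hadj hfu
      have s16 : ¬ Sees G R (Function.update f h a) v1 6 := by
        intro hs
        rcases sees_update hh hs with ⟨h1, _⟩ | h1
        · exact hv1h h1
        · exact no6 v1 hv1K hv1 h1
      have s26 : ¬ Sees G R (Function.update f h a) v2 6 := by
        intro hs
        rcases sees_update hh hs with ⟨h1, _⟩ | h1
        · exact hv2h h1
        · exact no6 v2 hv2K hv2 h1
      refine ⟨Function.update f h a, col_update hf ha1, ?_, ?_⟩
      · intro c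
        by_cases hca : c = a
        · subst hca; exact ⟨v1, hv1K, s1a⟩
        · by_cases hc6 : c = 6
          · subst hc6; exact ⟨v1, hv1K, s16⟩
          · refine ⟨n1, memK n1 hn1, ?_⟩
            intro hs
            rcases seeU a n1 hn1 c hs with h1 | h1
            · exact hca h1
            · exact hc6 h1
      · intro c c' hcc
        by_cases hc6 : c = 6
        · subst hc6
          exact ⟨v1, hv1K, v2, hv2K, hv12, fun h => s16 h.1, fun h => s26 h.1⟩
        · by_cases hc6' : c' = 6
          · subst hc6'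
            exact ⟨v1, hv1K, v2, hv2K, hv12, fun h => s16 h.2, fun h => s26 h.2⟩
          · have key : ∀ v ∈ nb G K h, ¬ (Sees G R (Function.update f h a) v c ∧
                Sees G R (Function.update f h a) v c') := by
              rintro v hv ⟨h1, h2⟩
              have e1 := (seeU a v hv c h1).resolve_right hc6
              have e2 := (seeU a v hv c' h2).resolve_right hc6'
              exact hcc (e1.trans e2.symm)
            exact ⟨n1, memK n1 hn1, n2, memK n2 hn2, hn12, key n1 hn1, key n2 hn2⟩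
    · -- six neighbours
      push Not at h5
      have h6 : (nb G K h).card = 6 := by
        have := nbK_R hyp hh
        omega
      have hC3' : C.card = 3 := by
        rw [hNCeq] at hNCcard
        omega
      have hsum : ∑ c ∈ C, (nb G K c).card ≥ 6 := by
        have h1 : NC.card ≤ ∑ c ∈ C, (nb G K c).card := Finset.card_biUnion_le
        rw [hNCeq] at h1
        omega
      have hK2 : ∀ c ∈ C, (nb G K c).card = 2 := by
        by_contra hcon
        push Not at hcon
        obtain ⟨c, hc, hc2⟩ := hcon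
        have h1 : (nb G K c).card ≤ 1 := by
          have := hKdeg c hc
          omega
        have h2 : ∑ x ∈ C.erase c, (nb G K x).card ≤ (C.erase c).card * 2 := by
          have := Finset.sum_le_card_nsmul (C.erase c) (fun x => (nb G K x).card) 2
            (fun x hx => hKdeg x (Finset.mem_of_mem_erase hx))
          simpa using this
        rw [← Finset.add_sum_erase C _ hc] at hsum
        rw [Finset.card_erase_of_mem hc, hC3'] at h2
        omega
      have hRQ : ∀ c ∈ C, nb G R c = Q := by
        intro c hc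
        have hsub : Q ⊆ nb G R c := by
          intro q hq
          exact mem_nb.mpr ⟨Finset.mem_of_mem_erase (hQR hq), (hQC q hq c hc).symm⟩
        refine (Finset.eq_of_subset_of_card_le hsub ?_).symm
        have h1 := nb_add hyp c
        have h2 := hK2 c hc
        omega
      have hhQ : h ∉ Q := fun hq => (Finset.mem_erase.mp (hQR hq)).1 rfl
      have hhC : h ∉ C := fun hq => (Finset.mem_erase.mp (hCR hq)).1 rfl
      have hnC : ∀ c ∈ C, ¬ G.Adj h c := by
        intro c hc hadj
        have : h ∈ nb G R c := mem_nb.mpr ⟨hh, hadj.symm⟩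
        rw [hRQ c hc] at this
        exact hhQ this
      have ha1 : ∀ u ∈ R, G.Adj h u → f u ≠ 6 := by
        intro u hu hadj hfu
        have hne := (G.ne_of_adj hadj).symm
        exact hnC u (hf6 u (Finset.mem_erase.mpr ⟨hne, hu⟩) hfu) hadj
      have see6 : ∀ v ∈ nb G K h, ∀ c, Sees G R (Function.update f h 6) v c → c = 6 := by
        intro v hv c hs
        rcases seeU 6 v hv c hs with h1 | h1 <;> exact h1
      refine ⟨Function.update f h 6, col_update hf ha1, ?_, ?_⟩
      · intro c
        by_cases hc6 : c = 6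
        · subst hc6
          refine ⟨v1, hv1K, ?_⟩
          intro hs
          rcases sees_update hh hs with ⟨h1, _⟩ | h1
          · exact hv1h h1
          · exact no6 v1 hv1K hv1 h1
        · exact ⟨n1, memK n1 hn1, fun hs => hc6 (see6 n1 hn1 c hs)⟩
      · intro c c' hcc
        have key : ∀ v ∈ nb G K h, ¬ (Sees G R (Function.update f h 6) v c ∧
            Sees G R (Function.update f h 6) v c') := by
          rintro v hv ⟨h1, h2⟩
          exact hcc ((see6 v hv c h1).trans (see6 v hv c' h2).symm)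
        exact ⟨n1, memK n1 hn1, n2, memK n2 hn2, hn12, key n1 hn1, key n2 hn2⟩
  · -- some further vertex sees six
    obtain ⟨x, hxNC, hxN⟩ := Finset.not_subset.mp hV7
    obtain ⟨c0, hc0, hxK, hc0x⟩ := (memNC x).mp hxNC
    have hxh : ¬ G.Adj x h := fun hadj => hxN (mem_nb.mpr ⟨hxK, hadj.symm⟩)
    obtain ⟨a, ha⟩ := exists_colour ((nb G R h).image f ∪ (nb G R x).image f) (by
      refine le_trans (Finset.card_union_le _ _) ?_
      have h1 := Finset.card_image_le (s := nb G R h) (f := f)
      have h2 := Finset.card_image_le (s := nb G R x) (f := f)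
      have h3 := nbR_K hyp hxK
      omega)
    rw [Finset.mem_union, not_or] at ha
    have ha1 : ∀ u ∈ R, G.Adj h u → f u ≠ a := by
      intro u hu hadj hfu
      exact ha.1 (Finset.mem_image.mpr ⟨u, mem_nb.mpr ⟨hu, hadj⟩, hfu⟩)
    have ha2 : ∀ u ∈ R, G.Adj x u → f u ≠ a := by
      intro u hu hadj hfu
      exact ha.2 (Finset.mem_image.mpr ⟨u, mem_nb.mpr ⟨hu, hadj⟩, hfu⟩)
    have ha6 : a ≠ 6 := by
      intro h6
      exact ha2 c0 (Finset.mem_of_mem_erase (hCR hc0)) hc0x.symm (by rw [hfC c0 hc0, h6])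
    have sxa : ¬ Sees G R (Function.update f h a) x a := by
      intro hs
      rcases sees_update hh hs with ⟨h1, _⟩ | ⟨u, hu, hadj, hfu⟩
      · exact hxh h1
      · exact ha2 u (Finset.mem_of_mem_erase hu) hadj hfu
    have s16 : ¬ Sees G R (Function.update f h a) v1 6 := by
      intro hs
      rcases sees_update hh hs with ⟨h1, _⟩ | h1
      · exact hv1h h1
      · exact no6 v1 hv1K hv1 h1
    have hv1x : v1 ≠ x := by
      intro h1; rw [h1] at hv1; exact hv1 hxNC
    refine ⟨Function.update f h a, col_update hf ha1, ?_, ?_⟩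
    · intro c
      by_cases hca : c = a
      · subst hca; exact ⟨x, hxK, sxa⟩
      · by_cases hc6 : c = 6
        · subst hc6; exact ⟨v1, hv1K, s16⟩
        · refine ⟨n1, memK n1 hn1, ?_⟩
          intro hs
          rcases seeU a n1 hn1 c hs with h1 | h1
          · exact hca h1
          · exact hc6 h1
    · intro c c' hcc
      by_cases hpair : (c = 6 ∨ c = a) ∧ (c' = 6 ∨ c' = a)
      · rcases hpair with ⟨rfl | rfl, rfl | rfl⟩
        · exact absurd rfl hcc
        · exact ⟨v1, hv1K, x, hxK, hv1x, fun h => s16 h.1, fun h => sxa h.2⟩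
        · exact ⟨v1, hv1K, x, hxK, hv1x, fun h => s16 h.2, fun h => sxa h.1⟩
        · exact absurd rfl hcc
      · have key : ∀ v ∈ nb G K h, ¬ (Sees G R (Function.update f h a) v c ∧
            Sees G R (Function.update f h a) v c') := by
          rintro v hv ⟨h1, h2⟩
          exact hpair ⟨(seeU a v hv c h1).symm, (seeU a v hv c' h2).symm⟩
        exact ⟨n1, memK n1 hn1, n2, memK n2 hn2, hn12, key n1 hn1, key n2 hn2⟩

end forced

end Pool.Agent.Q224.DJ
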