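import Pool.Agent.Q224.DJ.Stm

/-!
# The colouring lemma for at most fourteen vertices (padding)
-/

set_option autoImplicit false

namespace Pool.Agent.Q224.DJ

open Finset Classical

namespace LAaux

variable {V : Type} (G : SimpleGraph V) (W : Finset V) (n : ℕ)

/-- The padded graph. -/
def padG : SimpleGraph ({x // x ∈ W} ⊕ Fin n) where
  Adj a b := ∃ x y : {x // x ∈ W}, a = Sum.inl x ∧ b = Sum.inl y ∧ G.Adj x.1 y.1
  symm := by
    refine ⟨fun a b h => ?_⟩
    obtain ⟨x, y, h1, h2, h3⟩ := h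
    exact ⟨y, x, h2, h1, h3.symm⟩
  loopless := by
    refine ⟨fun a h => ?_⟩
    obtain ⟨x, y, h1, h2, h3⟩ := h
    have : x = y := Sum.inl_injective (h1.symm.trans h2)
    rw [this] at h3
    exact G.ne_of_adj h3 rfl

variable {G W n}

theorem padG_inl {x y : V} {hx : x ∈ W} {hy : y ∈ W} :
    (padG G W n).Adj (Sum.inl ⟨x, hx⟩) (Sum.inl ⟨y, hy⟩) ↔ G.Adj x y := by
  constructor
  · rintro ⟨a, b, h1, h2, h3⟩
    have e1 := Sum.inl_injective h1
    have e2 := Sum.inl_injective h2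
    subst e1
    subst e2
    exact h3
  · intro h
    exact ⟨⟨x, hx⟩, ⟨y, hy⟩, rfl, rfl, h⟩

theorem padG_left {a b : {x // x ∈ W} ⊕ Fin n} (h : (padG G W n).Adj a b) :
    ∃ (x : V) (hx : x ∈ W), a = Sum.inl ⟨x, hx⟩ := by
  obtain ⟨x, y, h1, h2, h3⟩ := h
  exact ⟨x.1, x.2, h1⟩

/-- The left part of a set. -/
noncomputable def L (Q : Finset ({x // x ∈ W} ⊕ Fin n)) : Finset V :=
  Q.toLeft.map (Function.Embedding.subtype _)

theorem mem_L {Q : Finset ({x // x ∈ W} ⊕ Fin n)} {x : V} :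
    x ∈ L Q ↔ ∃ hx : x ∈ W, Sum.inl ⟨x, hx⟩ ∈ Q := by
  unfold L
  rw [Finset.mem_map]
  constructor
  · rintro ⟨a, ha, rfl⟩
    exact ⟨a.2, Finset.mem_toLeft.mp ha⟩
  · rintro ⟨hx, h⟩
    exact ⟨⟨x, hx⟩, Finset.mem_toLeft.mpr h, rfl⟩

theorem card_L_le (Q : Finset ({x // x ∈ W} ⊕ Fin n)) : (L Q).card ≤ Q.card := by
  unfold L
  rw [Finset.card_map]
  exact Finset.card_toLeft_le

theorem card_L {Q : Finset ({x // x ∈ W} ⊕ Fin n)}
    (h : ∀ a ∈ Q, ∃ (x : V) (hx : x ∈ W), a = Sum.inl ⟨x, hx⟩) : (L Q).card = Q.card := by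
  have h0 : Q.toRight = ∅ := by
    rw [Finset.eq_empty_iff_forall_notMem]
    intro i hi
    obtain ⟨x, hx, e⟩ := h _ (Finset.mem_toRight.mp hi)
    exact Sum.inr_ne_inl e
  have h1 := Finset.card_toLeft_add_card_toRight (u := Q)
  rw [h0, Finset.card_empty] at h1
  unfold L
  rw [Finset.card_map]
  omega

theorem L_nb [Fintype V] {x : V} {hx : x ∈ W} (A : Finset ({x // x ∈ W} ⊕ Fin n)) :
    L (nb (padG G W n) A (Sum.inl ⟨x, hx⟩)) = nb G (L A) x := by
  ext y
  rw [mem_L]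
  simp only [nb, Finset.mem_filter, mem_L]
  constructor
  · rintro ⟨hy, h1, h2⟩
    exact ⟨⟨hy, h1⟩, padG_inl.mp h2⟩
  · rintro ⟨⟨hy, h1⟩, h2⟩
    exact ⟨hy, h1, padG_inl.mpr h2⟩

theorem L_univ : L (univ : Finset ({x // x ∈ W} ⊕ Fin n)) = W := by
  ext y
  rw [mem_L]
  constructor
  · rintro ⟨hy, _⟩; exact hy
  · intro hy; exact ⟨hy, Finset.mem_univ _⟩

theorem clq_L {Q : Finset ({x // x ∈ W} ⊕ Fin n)} (h : Clq (padG G W n) Q) : Clq G (L Q) := by
  intro x hx y hy hxy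
  obtain ⟨hxW, hx⟩ := mem_L.mp hx
  obtain ⟨hyW, hy⟩ := mem_L.mp hy
  refine padG_inl.mp (h _ hx _ hy ?_)
  intro e
  exact hxy (congrArg Subtype.val (Sum.inl_injective e))

theorem cover {X : Type} {A B C : Finset X} (h : A ∪ B = C) {x : X} (hx : x ∈ C) :
    x ∈ A ∨ x ∈ B := by
  rw [← h, Finset.mem_union] at hx
  exact hx

end LAaux

open LAaux in
theorem la (hTU : S_TU) (hPM : S_PM) : S_LA := by
  intro V _ G W hW hdeg hno
  set n := 14 - W.card with hn
  have hcard : Fintype.card ({x // x ∈ W} ⊕ Fin n) = 14 := by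
    rw [Fintype.card_sum, Fintype.card_coe, Fintype.card_fin]
    omega
  have hnbleft : ∀ (A : Finset ({x // x ∈ W} ⊕ Fin n)) a, ∀ b ∈ nb (padG G W n) A a,
      ∃ (x : V) (hx : x ∈ W), b = Sum.inl ⟨x, hx⟩ := by
    intro A a b hb
    simp only [nb, Finset.mem_filter] at hb
    exact padG_left hb.2.symm
  have hdeg' : ∀ a, (nb (padG G W n) univ a).card ≤ 8 := by
    intro a
    rw [← card_L (hnbleft univ a)]
    rcases a with ⟨x, hx⟩ | i
    · rw [L_nb, L_univ]
      exact hdeg x hx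
    · have : nb (padG G W n) univ (Sum.inr i) = ∅ := by
        rw [Finset.eq_empty_iff_forall_notMem]
        intro b hb
        simp only [nb, Finset.mem_filter] at hb
        obtain ⟨x, hx, e⟩ := padG_left hb.2
        exact Sum.inr_ne_inl e
      rw [this]
      have h0 : L (∅ : Finset ({x // x ∈ W} ⊕ Fin n)) = ∅ := by
        rw [Finset.eq_empty_iff_forall_notMem]
        intro b hb
        obtain ⟨_, hb⟩ := mem_L.mp hb
        exact absurd hb (Finset.notMem_empty _)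
      rw [h0]
      simp
  have hno' : NoK8 (padG G W n) univ := by
    intro Q _ h8 hQ
    have hleft : ∀ a ∈ Q, ∃ (x : V) (hx : x ∈ W), a = Sum.inl ⟨x, hx⟩ := by
      intro a ha
      have h1 : 0 < (Q.erase a).card := by rw [Finset.card_erase_of_mem ha]; omega
      obtain ⟨b, hb⟩ := Finset.card_pos.mp h1
      rw [Finset.mem_erase] at hb
      exact padG_left (hQ a ha b hb.2 hb.1.symm)
    refine hno (L Q) ?_ ?_ (clq_L hQ)
    · intro x hx
      exact (mem_L.mp hx).1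
    · rw [card_L hleft]; exact h8
  rcases hTU _ (padG G W n) hcard hdeg' hno' with hM | hE1 | hE2
  · obtain ⟨f, hf, hfib⟩ := hPM _ (padG G W n) hcard hM
    left
    refine ⟨fun x => if hx : x ∈ W then f (Sum.inl ⟨x, hx⟩) else 0, ?_, ?_⟩
    · intro x hx y hy hxy
      simp only [hx, hy, dif_pos]
      exact hf _ (Finset.mem_univ _) _ (Finset.mem_univ _) (padG_inl.mpr hxy)
    · intro c
      refine le_trans (Finset.card_le_card ?_) (le_trans (card_L_le _) (hfib c))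
      intro x hx
      rw [Finset.mem_filter] at hx
      obtain ⟨hxW, hx⟩ := hx
      simp only [hxW, dif_pos] at hx
      exact mem_L.mpr ⟨hxW, Finset.mem_filter.mpr ⟨Finset.mem_univ _, hx⟩⟩
  · right; left
    obtain ⟨Q, T, _, _, hd, hQ6, hT3, hQ, hQT, hT, hout⟩ := hE1
    have hQl : ∀ a ∈ Q, ∃ (x : V) (hx : x ∈ W), a = Sum.inl ⟨x, hx⟩ := by
      intro a ha
      obtain ⟨t, ht⟩ := Finset.card_pos.mp (show 0 < T.card by omega)
      exact padG_left (hQT a ha t ht)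
    have hTl : ∀ a ∈ T, ∃ (x : V) (hx : x ∈ W), a = Sum.inl ⟨x, hx⟩ := by
      intro a ha
      obtain ⟨q, hq⟩ := Finset.card_pos.mp (show 0 < Q.card by omega)
      exact padG_left (hQT q hq a ha).symm
    refine ⟨L Q, L T, ?_, ?_, ?_, ?_, ?_, clq_L hQ, ?_, ?_, ?_⟩
    · intro x hx; exact (mem_L.mp hx).1
    · intro x hx; exact (mem_L.mp hx).1
    · rw [Finset.disjoint_left]
      intro x hx hx'
      exact Finset.disjoint_left.mp hd (mem_L.mp hx).2 (mem_L.mp hx').2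
    · rw [card_L hQl, hQ6]
    · rw [card_L hTl, hT3]
    · intro q hq t ht
      exact padG_inl.mp (hQT _ (mem_L.mp hq).2 _ (mem_L.mp ht).2)
    · intro t ht t' ht' h
      exact hT _ (mem_L.mp ht).2 _ (mem_L.mp ht').2 (padG_inl.mpr h)
    · intro q hq y hy hadj
      have := hout _ (mem_L.mp hq).2 (Sum.inl ⟨y, hy⟩) (Finset.mem_univ _) (padG_inl.mpr hadj)
      rcases this with h | h
      · left; exact mem_L.mpr ⟨hy, h⟩
      · right; exact mem_L.mpr ⟨hy, h⟩
  · right; right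
    obtain ⟨A, B, hAB, hd, hA7, hB7, hj, hA, hB⟩ := hE2
    have hAl : ∀ a ∈ A, ∃ (x : V) (hx : x ∈ W), a = Sum.inl ⟨x, hx⟩ := by
      intro a ha
      obtain ⟨t, ht⟩ := Finset.card_pos.mp (show 0 < B.card by omega)
      exact padG_left (hj a ha t ht)
    have hBl : ∀ a ∈ B, ∃ (x : V) (hx : x ∈ W), a = Sum.inl ⟨x, hx⟩ := by
      intro a ha
      obtain ⟨q, hq⟩ := Finset.card_pos.mp (show 0 < A.card by omega)
      exact padG_left (hj q hq a ha).symm
    refine ⟨L A, L B, ?_, ?_, ?_, ?_, ?_, ?_, ?_⟩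
    · ext x
      rw [Finset.mem_union]
      constructor
      · rintro (h | h)
        · exact (mem_L.mp h).1
        · exact (mem_L.mp h).1
      · intro hx
        rcases cover hAB (Finset.mem_univ (Sum.inl ⟨x, hx⟩)) with h | h
        · left; exact mem_L.mpr ⟨hx, h⟩
        · right; exact mem_L.mpr ⟨hx, h⟩
    · rw [Finset.disjoint_left]
      intro x hx hx'
      exact Finset.disjoint_left.mp hd (mem_L.mp hx).2 (mem_L.mp hx').2
    · rw [card_L hAl, hA7]
    · rw [card_L hBl, hB7]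
    · intro a ha b hb
      exact padG_inl.mp (hj _ (mem_L.mp ha).2 _ (mem_L.mp hb).2)
    · intro a ha
      obtain ⟨haW, ha⟩ := mem_L.mp ha
      rw [← L_nb (hx := haW)]
      exact le_trans (card_L_le _) (hA _ ha)
    · intro a ha
      obtain ⟨haW, ha⟩ := mem_L.mp ha
      rw [← L_nb (hx := haW)]
      exact le_trans (card_L_le _) (hB _ ha)

end Pool.Agent.Q224.DJ
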