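import Pool.Agent.Q224.DJ.Asm

/-!
# The lower bound for arbitrary finite vertex sets
-/

set_option autoImplicit false

namespace Pool.Agent.Q224.DJ

open Finset Classical

/-- A finite graph with clique number seven, chromatic number eight and maximum degree eight has
at least twenty-two vertices. -/
theorem low_gen (hH1 : S_H1) (hH0 : S_H0) (hEXT : S_EXT) (V : Type) [Fintype V]
    (H : SimpleGraph V) (hcl : H.cliqueNum = 7) (hchi : H.chromaticNumber = 8)
    (hdeg : ∀ x, (nb H univ x).card ≤ 8) : 22 ≤ Fintype.card V := by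
  by_contra hm
  push Not at hm
  obtain ⟨K, hK⟩ := H.exists_isNClique_cliqueNum
  rw [hcl] at hK
  have hyp : Hyp H K (univ \ K) := by
    refine ⟨?_, ?_, hK.card_eq, ?_, ?_, ?_, ?_⟩
    · intro x
      by_cases hx : x ∈ K
      · exact Or.inl hx
      · right; simp [hx]
    · intro x hx; simp [hx]
    · intro x hx y hy hxy
      exact hK.isClique (Finset.mem_coe.mpr hx) (Finset.mem_coe.mpr hy) hxy
    · rw [Finset.card_sdiff_of_subset (Finset.subset_univ K), hK.card_eq, Finset.card_univ]
      omega
    · exact hdeg
    · intro Q _ hQ8 hQc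
      have h1 : H.IsNClique 8 Q := by
        rw [SimpleGraph.isNClique_iff]
        refine ⟨?_, hQ8⟩
        intro x hx y hy hxy
        exact hQc x (Finset.mem_coe.mp hx) y (Finset.mem_coe.mp hy) hxy
      have h2 : Q.card ≤ H.cliqueNum := h1.isClique.card_le_cliqueNum
      omega
  have hgood : ∃ g, Good H K (univ \ K) g := by
    by_cases h : ∃ h ∈ univ \ K, 4 ≤ (nb H K h).card
    · exact hH1 _ H K _ hyp h
    · push Not at h
      exact hH0 _ H K _ hyp (fun u hu => by have := h u hu; omega)
  obtain ⟨g, hg⟩ := hgood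
  have hcol := hEXT _ H K _ g hyp hg
  have h7 : H.chromaticNumber ≤ 7 := by
    have := hcol.chromaticNumber_le
    exact_mod_cast this
  rw [hchi] at h7
  exact absurd h7 (by norm_num)

end Pool.Agent.Q224.DJ
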