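import Pool.Agent.Q224.DJ.Forced

/-!
# Colourings with small classes
-/

set_option autoImplicit false

namespace Pool.Agent.Q224.DJ

open Finset Classical

/-- The vertices of the clique which see a colour. -/
noncomputable def SK {V : Type} (G : SimpleGraph V) (K R : Finset V) (f : V → Fin 7) (c : Fin 7) :
    Finset V := K.filter (fun v => Sees G R f v c)

theorem SK_struct {V : Type} [Fintype V] {G : SimpleGraph V} {K R : Finset V} {f : V → Fin 7}
    (h3 : ∀ u ∈ R, (nb G K u).card ≤ 3)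
    (hfib : ∀ c, (R.filter (fun x => f x = c)).card ≤ 2) (c : Fin 7) :
    (SK G K R f c).card ≤ 6 ∧ (6 ≤ (SK G K R f c).card → ∃ u1 ∈ R, ∃ u2 ∈ R, u1 ≠ u2 ∧
      f u1 = c ∧ f u2 = c ∧ (nb G K u1).card = 3 ∧ (nb G K u2).card = 3 ∧
      Disjoint (nb G K u1) (nb G K u2) ∧ nb G K u1 ∪ nb G K u2 = SK G K R f c) := by
  set F := R.filter (fun x => f x = c) with hF
  have hsub : SK G K R f c ⊆ F.biUnion (fun u => nb G K u) := by
    intro v hv
    obtain ⟨hvK, u, hu, hvu, hfu⟩ := Finset.mem_filter.mp hv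
    exact Finset.mem_biUnion.mpr ⟨u, Finset.mem_filter.mpr ⟨hu, hfu⟩, mem_nb.mpr ⟨hvK, hvu.symm⟩⟩
  have hle : (F.biUnion (fun u => nb G K u)).card ≤ F.card * 3 :=
    Finset.card_biUnion_le_card_mul _ _ _ (fun u hu => h3 u (Finset.mem_filter.mp hu).1)
  have h1 := Finset.card_le_card hsub
  have h2 : F.card ≤ 2 := hfib c
  refine ⟨by omega, ?_⟩
  intro h6
  have hF2 : F.card = 2 := by omega
  obtain ⟨u1, u2, h12, hFe⟩ := Finset.card_eq_two.mp hF2
  have hu1 : u1 ∈ F := by rw [hFe]; simp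
  have hu2 : u2 ∈ F := by rw [hFe]; simp
  rw [hF, Finset.mem_filter] at hu1 hu2
  have hsub2 : SK G K R f c ⊆ nb G K u1 ∪ nb G K u2 := by
    intro v hv
    obtain ⟨u, hu, hvu⟩ := Finset.mem_biUnion.mp (hsub hv)
    rw [hFe, Finset.mem_insert, Finset.mem_singleton] at hu
    rw [Finset.mem_union]
    rcases hu with rfl | rfl
    · exact Or.inl hvu
    · exact Or.inr hvu
  have h5 := Finset.card_le_card hsub2
  have h7 := Finset.card_union_add_card_inter (nb G K u1) (nb G K u2)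
  have h8 := h3 u1 hu1.1
  have h9 := h3 u2 hu2.1
  refine ⟨u1, hu1.1, u2, hu2.1, h12, hu1.2, hu2.2, by omega, by omega, ?_, ?_⟩
  · rw [Finset.disjoint_iff_inter_eq_empty, ← Finset.card_eq_zero]
    omega
  · symm
    exact Finset.eq_of_subset_of_card_le hsub2 (by omega)

theorem pg : S_PG := by
  intro V _ G K R f hyp h3 hf hfib
  by_cases hgood : Good G K R f
  · exact Or.inl ⟨f, hgood⟩
  right
  have hst := SK_struct (G := G) (K := K) (R := R) (f := f) h3 hfib
  have hone : ∀ c, ∃ v ∈ K, ¬ Sees G R f v c := by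
    intro c
    by_contra hall
    push Not at hall
    have : SK G K R f c = K := by
      unfold SK
      rw [Finset.filter_eq_self]
      exact hall
    have h1 := (hst c).1
    rw [this, hyp.2.2.1] at h1
    omega
  have hpair : ∃ c c', c ≠ c' ∧ ∀ v ∈ K, ∀ v' ∈ K, ¬ (Sees G R f v c ∧ Sees G R f v c') →
      ¬ (Sees G R f v' c ∧ Sees G R f v' c') → v = v' := by
    by_contra hno
    apply hgood
    refine ⟨hf, hone, ?_⟩
    intro c c' hcc
    by_contra hn
    apply hno
    refine ⟨c, c', hcc, ?_⟩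
    intro v hv v' hv' h1 h2
    by_contra hvv
    exact hn ⟨v, hv, v', hv', hvv, h1, h2⟩
  obtain ⟨c, c', hcc, huniq⟩ := hpair
  set Z := K.filter (fun v => Sees G R f v c ∧ Sees G R f v c') with hZ
  have hZ6 : 6 ≤ Z.card := by
    have h1 : (K.filter (fun v => ¬ (Sees G R f v c ∧ Sees G R f v c'))).card ≤ 1 := by
      rw [Finset.card_le_one]
      intro a ha b hb
      rw [Finset.mem_filter] at ha hb
      exact huniq a ha.1 b hb.1 ha.2 hb.2
    have h2 := Finset.card_filter_add_card_filter_not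
      (s := K) (fun v => Sees G R f v c ∧ Sees G R f v c')
    rw [hyp.2.2.1] at h2
    have h3 : Z.card = (K.filter (fun v => Sees G R f v c ∧ Sees G R f v c')).card := rfl
    omega
  have hZc : Z ⊆ SK G K R f c := by
    intro v hv
    rw [hZ, Finset.mem_filter] at hv
    exact Finset.mem_filter.mpr ⟨hv.1, hv.2.1⟩
  have hZc' : Z ⊆ SK G K R f c' := by
    intro v hv
    rw [hZ, Finset.mem_filter] at hv
    exact Finset.mem_filter.mpr ⟨hv.1, hv.2.2⟩
  have e1 : Z = SK G K R f c :=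
    Finset.eq_of_subset_of_card_le hZc (le_trans (hst c).1 hZ6)
  have e2 : Z = SK G K R f c' :=
    Finset.eq_of_subset_of_card_le hZc' (le_trans (hst c').1 hZ6)
  obtain ⟨u1, hu1, u2, hu2, h12, f1, f2, n1, n2, d12, U12⟩ := (hst c).2 (e1 ▸ hZ6)
  obtain ⟨u3, hu3, u4, hu4, h34, f3, f4, n3, n4, d34, U34⟩ := (hst c').2 (e2 ▸ hZ6)
  refine ⟨u1, hu1, u2, hu2, u3, hu3, u4, hu4, ?_, n1, n2, n3, n4, d12, d34, ?_, ?_, ?_⟩
  · have h13 : u1 ≠ u3 := fun h => hcc (f1.symm.trans ((congrArg f h).trans f3))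
    have h14 : u1 ≠ u4 := fun h => hcc (f1.symm.trans ((congrArg f h).trans f4))
    have h23 : u2 ≠ u3 := fun h => hcc (f2.symm.trans ((congrArg f h).trans f3))
    have h24 : u2 ≠ u4 := fun h => hcc (f2.symm.trans ((congrArg f h).trans f4))
    simp only [List.nodup_cons, List.mem_cons, List.not_mem_nil, or_false, not_or,
      not_false_eq_true, List.nodup_nil, and_true]
    exact ⟨⟨h12, h13, h14⟩, ⟨h23, h24⟩, h34⟩
  · rw [U12, U34, ← e1, ← e2]
  · intro h
    exact hf u1 hu1 u2 hu2 h (f1.trans f2.symm)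
  · intro h
    exact hf u3 hu3 u4 hu4 h (f3.trans f4.symm)

end Pool.Agent.Q224.DJ
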