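import Pool.Agent.Q224.DJ.Stm

/-!
# A perfect matching of the complement gives a colouring
-/

set_option autoImplicit false

namespace Pool.Agent.Q224.DJ

open Finset Classical

theorem pm : S_PM := by
  intro U _ F hcard hM
  obtain ⟨M, hM⟩ := hM
  have hex : ∀ x, ∃ y, M.Adj x y ∧ ∀ z, M.Adj x z → z = y := by
    intro x
    obtain ⟨y, hy, hu⟩ := hM.1 (hM.2 x)
    exact ⟨y, hy, hu⟩
  choose p hp hpu using hex
  have hpp : ∀ x, p (p x) = x := fun x => (hpu (p x) x (hp x).symm).symm
  have hpn : ∀ x, p x ≠ x := fun x h => by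
    have := (hp x).adj_sub
    rw [h] at this
    exact (Fᶜ).ne_of_adj this rfl
  have hpF : ∀ x, ¬ F.Adj x (p x) := fun x h => by
    have := (hp x).adj_sub
    rw [SimpleGraph.compl_adj] at this
    exact this.2 h
  let e : U → Sym2 U := fun x => s(x, p x)
  have he : ∀ x y, e y = e x ↔ y = x ∨ y = p x := by
    intro x y
    show s(y, p y) = s(x, p x) ↔ _
    rw [Sym2.eq_iff]
    constructor
    · rintro (⟨h, _⟩ | ⟨h, _⟩)
      · exact Or.inl h
      · exact Or.inr h
    · rintro (h | h)
      · left; exact ⟨h, by rw [h]⟩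
      · right; exact ⟨h, by rw [h, hpp]⟩
  have hfib : ∀ x, univ.filter (fun y => e y = e x) = {x, p x} := by
    intro x
    ext y
    rw [Finset.mem_filter, Finset.mem_insert, Finset.mem_singleton, he]
    simp
  have hE : (univ.image e).card = 7 := by
    have h1 := Finset.card_eq_sum_card_image e (univ : Finset U)
    have h2 : ∀ b ∈ univ.image e, (univ.filter (fun a => e a = b)).card = 2 := by
      intro b hb
      obtain ⟨x, _, rfl⟩ := Finset.mem_image.mp hb
      rw [hfib x]
      exact Finset.card_pair (hpn x).symm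
    rw [Finset.sum_congr rfl h2, Finset.sum_const, Finset.card_univ, hcard, smul_eq_mul] at h1
    omega
  let φ := Finset.equivFinOfCardEq hE
  refine ⟨fun x => φ ⟨e x, Finset.mem_image_of_mem _ (Finset.mem_univ x)⟩, ?_, ?_⟩
  · intro x _ y _ hxy h
    have h1 := congrArg Subtype.val (φ.injective h)
    rcases (he y x).mp h1 with h2 | h2
    · exact F.ne_of_adj hxy h2
    · rw [h2] at hxy
      exact hpF y hxy.symm
  · intro c
    rcases (univ.filter (fun x => φ ⟨e x, Finset.mem_image_of_mem _ (Finset.mem_univ x)⟩ = c)).eq_empty_or_nonempty with h0 | ⟨x, hx⟩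
    · rw [h0]; simp
    · refine le_trans (Finset.card_le_card (t := {x, p x}) ?_) Finset.card_le_two
      intro y hy
      rw [Finset.mem_filter] at hx hy
      have h1 := congrArg Subtype.val (φ.injective (hy.2.trans hx.2.symm))
      rw [Finset.mem_insert, Finset.mem_singleton]
      exact (he x y).mp h1

end Pool.Agent.Q224.DJ
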