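import Pool.Agent.Q224.DJ.Def

/-!
# Statements of the steps of the project DJ
-/

set_option autoImplicit false

namespace Pool.Agent.Q224.DJ

open Finset Classical

/-- Tutte: fourteen vertices, maximum degree at most eight, no clique of size eight. -/
def S_TU : Prop := ∀ (U : Type) [Fintype U] (F : SimpleGraph U), Fintype.card U = 14 →
  (∀ x, (nb F univ x).card ≤ 8) → NoK8 F univ →
  (∃ M : (Fᶜ).Subgraph, M.IsPerfectMatching) ∨ E1 F univ ∨ E2 F univ

/-- A perfect matching of the complement of a graph on fourteen vertices gives a colouring. -/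
def S_PM : Prop := ∀ (U : Type) [Fintype U] (F : SimpleGraph U), Fintype.card U = 14 →
  (∃ M : (Fᶜ).Subgraph, M.IsPerfectMatching) →
  ∃ f : U → Fin 7, Col F univ f ∧ ∀ c, (univ.filter (fun x => f x = c)).card ≤ 2

/-- The strong form of the colouring lemma, for sets of at most fourteen vertices. -/
def S_LA : Prop := ∀ (V : Type) [Fintype V] (G : SimpleGraph V) (W : Finset V), W.card ≤ 14 →
  (∀ x ∈ W, (nb G W x).card ≤ 8) → NoK8 G W →
  (∃ f : V → Fin 7, Col G W f ∧ ∀ c, (W.filter (fun x => f x = c)).card ≤ 2) ∨ E1 G W ∨ E2 G W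

/-- The weak form of the colouring lemma. -/
def S_LB : Prop := ∀ (V : Type) [Fintype V] (G : SimpleGraph V) (W : Finset V), W.card ≤ 14 →
  (∀ x ∈ W, (nb G W x).card ≤ 8) → NoK8 G W → ∃ f : V → Fin 7, Col G W f

/-- A good colouring extends. -/
def S_EXT : Prop := ∀ (V : Type) [Fintype V] (G : SimpleGraph V) (K R : Finset V)
  (f : V → Fin 7), Hyp G K R → Good G K R f → G.Colorable 7

/-- One vertex `h` with at least four neighbours in `K`, whose neighbours in `K` do not all see one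
common colour outside `h`. -/
def S_STAR : Prop := ∀ (V : Type) [Fintype V] (G : SimpleGraph V) (K R : Finset V) (h : V)
  (f : V → Fin 7), Hyp G K R → h ∈ R → 4 ≤ (nb G K h).card → Col G (R.erase h) f →
  (∀ c, ∃ v ∈ nb G K h, ¬ Sees G (R.erase h) f v c) → ∃ g, Good G K R g

/-- Two vertices with the same neighbours in `K`, at least four of them. -/
def S_ONE : Prop := ∀ (V : Type) [Fintype V] (G : SimpleGraph V) (K R : Finset V) (h b : V)
  (f : V → Fin 7), Hyp G K R → h ∈ R → b ∈ R → h ≠ b → nb G K b = nb G K h →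
  4 ≤ (nb G K h).card → Col G ((R.erase h).erase b) f → ∃ g, Good G K R g

/-- Two vertices of `BS` which can be coloured differently. -/
def S_TWO : Prop := S_LB → S_STAR → ∀ (V : Type) [Fintype V] (G : SimpleGraph V)
  (K R : Finset V) (h b b' : V), Hyp G K R → h ∈ R → 4 ≤ (nb G K h).card →
  b ∈ BS G K R h → b' ∈ BS G K R h → b ≠ b' →
  (G.Adj b b' ∨ ¬ ∃ Q : Finset V, Q ⊆ R.erase h ∧ Q.card = 6 ∧ Clq G Q ∧
    ∀ q ∈ Q, G.Adj q b ∧ G.Adj q b') → ∃ g, Good G K R g

/-- The forced case: any two vertices of `BS` have the same colour in every colouring. -/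
def S_FORCED : Prop := ∀ (V : Type) [Fintype V] (G : SimpleGraph V) (K R : Finset V) (h : V),
  Hyp G K R → h ∈ R → 4 ≤ (nb G K h).card →
  (∀ v ∈ nb G K h, ∃ u ∈ R.erase h, G.Adj v u) →
  (∃ b ∈ BS G K R h, ∃ b' ∈ BS G K R h, b ≠ b') →
  (∀ b ∈ BS G K R h, ∀ b' ∈ BS G K R h, b ≠ b' → ¬ G.Adj b b' ∧
    ∃ Q : Finset V, Q ⊆ R.erase h ∧ Q.card = 6 ∧ Clq G Q ∧ ∀ q ∈ Q, G.Adj q b ∧ G.Adj q b') →
  ∃ g, Good G K R g

/-- Some vertex of `R` has at least four neighbours in `K`. -/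
def S_H1 : Prop := ∀ (V : Type) [Fintype V] (G : SimpleGraph V) (K R : Finset V),
  Hyp G K R → (∃ h ∈ R, 4 ≤ (nb G K h).card) → ∃ g, Good G K R g

/-- Four vertices with three neighbours each, two different partitions. -/
def S_SIGNE : Prop := S_LB → ∀ (V : Type) [Fintype V] (G : SimpleGraph V) (K R : Finset V)
  (u1 u2 u3 u4 : V), Hyp G K R → u1 ∈ R → u2 ∈ R → u3 ∈ R → u4 ∈ R →
  [u1, u2, u3, u4].Nodup →
  (nb G K u1).card = 3 → (nb G K u2).card = 3 → (nb G K u3).card = 3 → (nb G K u4).card = 3 →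
  Disjoint (nb G K u1) (nb G K u2) → Disjoint (nb G K u3) (nb G K u4) →
  nb G K u1 ∪ nb G K u2 = nb G K u3 ∪ nb G K u4 → nb G K u1 ≠ nb G K u3 →
  nb G K u1 ≠ nb G K u4 → ∃ g, Good G K R g

/-- Four vertices with three neighbours each, equal partitions. -/
def S_SIGEQ : Prop := S_LB → ∀ (V : Type) [Fintype V] (G : SimpleGraph V) (K R : Finset V)
  (u1 u2 u3 u4 : V), Hyp G K R → u1 ∈ R → u2 ∈ R → u3 ∈ R → u4 ∈ R →
  [u1, u2, u3, u4].Nodup → (nb G K u1).card = 3 → (nb G K u2).card = 3 →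
  Disjoint (nb G K u1) (nb G K u2) → nb G K u1 = nb G K u3 → nb G K u2 = nb G K u4 →
  ¬ G.Adj u1 u2 → ¬ G.Adj u3 u4 → ∃ g, Good G K R g

/-- A colouring with classes of size at most two, all vertices of `R` with at most three neighbours
in `K`. -/
def S_PG : Prop := ∀ (V : Type) [Fintype V] (G : SimpleGraph V) (K R : Finset V)
  (f : V → Fin 7), Hyp G K R → (∀ u ∈ R, (nb G K u).card ≤ 3) → Col G R f →
  (∀ c, (R.filter (fun x => f x = c)).card ≤ 2) →
  (∃ g, Good G K R g) ∨ ∃ u1 ∈ R, ∃ u2 ∈ R, ∃ u3 ∈ R, ∃ u4 ∈ R, [u1, u2, u3, u4].Nodup ∧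
    (nb G K u1).card = 3 ∧ (nb G K u2).card = 3 ∧ (nb G K u3).card = 3 ∧ (nb G K u4).card = 3 ∧
    Disjoint (nb G K u1) (nb G K u2) ∧ Disjoint (nb G K u3) (nb G K u4) ∧
    nb G K u1 ∪ nb G K u2 = nb G K u3 ∪ nb G K u4 ∧ ¬ G.Adj u1 u2 ∧ ¬ G.Adj u3 u4

/-- The first exceptional structure, all vertices of `R` with at most three neighbours in `K`. -/
def S_E1G : Prop := ∀ (V : Type) [Fintype V] (G : SimpleGraph V) (K R : Finset V),
  Hyp G K R → (∀ u ∈ R, (nb G K u).card ≤ 3) → E1 G R → ∃ g, Good G K R g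

/-- The second exceptional structure. -/
def S_E2G : Prop := ∀ (V : Type) [Fintype V] (G : SimpleGraph V) (K R : Finset V),
  Hyp G K R → E2 G R → ∃ g, Good G K R g

/-- All vertices of `R` have at most three neighbours in `K`. -/
def S_H0 : Prop := ∀ (V : Type) [Fintype V] (G : SimpleGraph V) (K R : Finset V),
  Hyp G K R → (∀ u ∈ R, (nb G K u).card ≤ 3) → ∃ g, Good G K R g

/-- The example. -/
def S_EX : Prop := Via exG 7 8 8 ∧ ¬ exG.Connected ∧
  ∀ v : Fin 22, exG.degree v = 8 → ∀ s : Finset (Fin 22), exG.IsNClique 7 s → v ∉ s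

/-- The lower bound. -/
def S_LOW : Prop := ∀ (m : ℕ) (H : SimpleGraph (Fin m)), Via H 7 8 8 → 22 ≤ m

end Pool.Agent.Q224.DJ
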