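import Pool.Agent.Q224.DJ.Forced

/-!
# Two vertices which can be coloured differently
-/

set_option autoImplicit false

namespace Pool.Agent.Q224.DJ

open Finset Classical

theorem two : S_TWO := by
  intro hLB hSTAR V _ G K R h b b' hyp hR h4 hb hb' hne hcase
  have hBS : ∀ x ∈ BS G K R h, x ∈ R.erase h ∧ ∃ v ∈ nb G K h, G.Adj v x := by
    intro x hx
    simpa only [BS, Finset.mem_filter] using hx
  have hWR : (R.erase h).card ≤ 14 := le_trans (Finset.card_erase_le) hyp.2.2.2.2.1
  have hnbW : ∀ x, (nb G (R.erase h) x).card ≤ (nb G R x).card := by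
    intro x
    apply Finset.card_le_card
    intro y hy
    exact mem_nb.mpr ⟨Finset.mem_of_mem_erase (mem_nb.mp hy).1, (mem_nb.mp hy).2⟩
  have hdegW : ∀ x ∈ BS G K R h, (nb G (R.erase h) x).card ≤ 7 := by
    intro x hx
    obtain ⟨_, v, hv, hvx⟩ := hBS x hx
    have h1 : 1 ≤ (nb G K x).card :=
      Finset.card_pos.mpr ⟨v, mem_nb.mpr ⟨(mem_nb.mp hv).1, hvx.symm⟩⟩
    have h2 := nb_add hyp x
    have h3 := hnbW x
    omega
  have key : ∃ f : V → Fin 7, Col G (R.erase h) f ∧ f b ≠ f b' := by
    by_cases hadj : G.Adj b b'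
    · obtain ⟨f, hf⟩ := hLB V G (R.erase h) hWR
        (fun x _ => by have h1 := hnbW x; have h2 := nb_add hyp x; omega)
        (fun Q _ h8 hQ => hyp.2.2.2.2.2.2 Q (Finset.subset_univ _) h8 hQ)
      exact ⟨f, hf, hf b (hBS b hb).1 b' (hBS b' hb').1 hadj⟩
    · have hnoQ := hcase.resolve_left hadj
      set G' : SimpleGraph V := G ⊔ SimpleGraph.edge b b' with hG'
      have hadj' : ∀ x y, G'.Adj x y ↔ G.Adj x y ∨
          ((x = b ∧ y = b' ∨ x = b' ∧ y = b) ∧ x ≠ y) := by
        intro x y
        rw [hG', SimpleGraph.sup_adj, SimpleGraph.edge_adj]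
      have hdeg : ∀ x ∈ R.erase h, (nb G' (R.erase h) x).card ≤ 8 := by
        intro x _
        by_cases hxb : x = b
        · have hs : nb G' (R.erase h) x ⊆ insert b' (nb G (R.erase h) x) := by
            intro y hy
            rw [mem_nb, hadj'] at hy
            rw [Finset.mem_insert]
            rcases hy with ⟨hyW, hy | ⟨⟨_, hy⟩ | ⟨hx2, _⟩, _⟩⟩
            · right; exact mem_nb.mpr ⟨hyW, hy⟩
            · left; exact hy
            · exact absurd (hxb.symm.trans hx2) hne
          have h1 := Finset.card_le_card hs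
          have h2 := Finset.card_insert_le b' (nb G (R.erase h) x)
          have h3 := hdegW b hb
          rw [hxb] at h1 h2 ⊢
          omega
        · by_cases hxb' : x = b'
          · have hs : nb G' (R.erase h) x ⊆ insert b (nb G (R.erase h) x) := by
              intro y hy
              rw [mem_nb, hadj'] at hy
              rw [Finset.mem_insert]
              rcases hy with ⟨hyW, hy | ⟨⟨hx2, _⟩ | ⟨_, hy⟩, _⟩⟩
              · right; exact mem_nb.mpr ⟨hyW, hy⟩
              · exact absurd hx2 hxb
              · left; exact hy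
            have h1 := Finset.card_le_card hs
            have h2 := Finset.card_insert_le b (nb G (R.erase h) x)
            have h3 := hdegW b' hb'
            rw [hxb'] at h1 h2 ⊢
            omega
          · have hs : nb G' (R.erase h) x ⊆ nb G (R.erase h) x := by
              intro y hy
              rw [mem_nb, hadj'] at hy
              rcases hy with ⟨hyW, hy | ⟨⟨hx2, _⟩ | ⟨hx2, _⟩, _⟩⟩
              · exact mem_nb.mpr ⟨hyW, hy⟩
              · exact absurd hx2 hxb
              · exact absurd hx2 hxb'
            have h1 := Finset.card_le_card hs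
            have h2 := hnbW x
            have h3 := nb_add hyp x
            omega
      have hno : NoK8 G' (R.erase h) := by
        intro Q hQW hQ8 hQ
        by_cases hbQ : b ∈ Q ∧ b' ∈ Q
        · refine hnoQ ⟨(Q.erase b).erase b', ?_, ?_, ?_, ?_⟩
          · intro x hx
            exact hQW (Finset.mem_of_mem_erase (Finset.mem_of_mem_erase hx))
          · rw [Finset.card_erase_of_mem (Finset.mem_erase.mpr ⟨hne.symm, hbQ.2⟩),
              Finset.card_erase_of_mem hbQ.1, hQ8]
          · intro x hx y hy hxy
            rw [Finset.mem_erase, Finset.mem_erase] at hx hy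
            have h1 := hQ x hx.2.2 y hy.2.2 hxy
            rw [hadj'] at h1
            rcases h1 with h1 | ⟨⟨h1, _⟩ | ⟨h1, _⟩, _⟩
            · exact h1
            · exact absurd h1 hx.2.1
            · exact absurd h1 hx.1
          · intro q hq
            rw [Finset.mem_erase, Finset.mem_erase] at hq
            constructor
            · have h1 := hQ q hq.2.2 b hbQ.1 hq.2.1
              rw [hadj'] at h1
              rcases h1 with h1 | ⟨⟨h1, _⟩ | ⟨h1, _⟩, _⟩
              · exact h1
              · exact absurd h1 hq.2.1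
              · exact absurd h1 hq.1
            · have h1 := hQ q hq.2.2 b' hbQ.2 hq.1
              rw [hadj'] at h1
              rcases h1 with h1 | ⟨⟨h1, _⟩ | ⟨h1, _⟩, _⟩
              · exact h1
              · exact absurd h1 hq.2.1
              · exact absurd h1 hq.1
        · refine hyp.2.2.2.2.2.2 Q (Finset.subset_univ _) hQ8 ?_
          intro x hx y hy hxy
          have h1 := hQ x hx y hy hxy
          rw [hadj'] at h1
          rcases h1 with h1 | ⟨⟨h1, h2⟩ | ⟨h1, h2⟩, _⟩
          · exact h1
          · exact absurd ⟨h1 ▸ hx, h2 ▸ hy⟩ hbQ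
          · exact absurd ⟨h2 ▸ hy, h1 ▸ hx⟩ hbQ
      obtain ⟨f, hf⟩ := hLB V G' (R.erase h) hWR hdeg hno
      refine ⟨f, ?_, ?_⟩
      · intro x hx y hy hxy
        exact hf x hx y hy ((hadj' x y).mpr (Or.inl hxy))
      · exact hf b (hBS b hb).1 b' (hBS b' hb').1
          ((hadj' b b').mpr (Or.inr ⟨Or.inl ⟨rfl, rfl⟩, hne⟩))
  obtain ⟨f, hf, hfb⟩ := key
  refine hSTAR V G K R h f hyp hR h4 hf ?_
  intro c
  by_contra hall
  push Not at hall
  have hcol : ∀ x ∈ BS G K R h, f x = c := by
    intro x hx
    obtain ⟨hxW, v, hv, hvx⟩ := hBS x hx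
    obtain ⟨u, hu, hvu, hfu⟩ := hall v hv
    have hvK := (mem_nb.mp hv).1
    have h2 := nbR_K hyp hvK
    by_contra hne2
    have hux : u ≠ x := fun h => hne2 (h ▸ hfu)
    have hsub : ({h, x, u} : Finset V) ⊆ nb G R v := by
      intro y hy
      simp only [Finset.mem_insert, Finset.mem_singleton] at hy
      rcases hy with rfl | rfl | rfl
      · exact mem_nb.mpr ⟨hR, (mem_nb.mp hv).2.symm⟩
      · exact mem_nb.mpr ⟨Finset.mem_of_mem_erase hxW, hvx⟩
      · exact mem_nb.mpr ⟨Finset.mem_of_mem_erase hu, hvu⟩
    have h3 : ({h, x, u} : Finset V).card = 3 := by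
      rw [Finset.card_insert_of_notMem, Finset.card_pair hux.symm]
      simp only [Finset.mem_insert, Finset.mem_singleton, not_or]
      exact ⟨(Finset.mem_erase.mp hxW).1.symm, (Finset.mem_erase.mp hu).1.symm⟩
    have h4 := Finset.card_le_card hsub
    omega
  exact hfb ((hcol b hb).trans (hcol b' hb').symm)

end Pool.Agent.Q224.DJ
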